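import Pool.Agent.H21.L.R_seed8.H341R2.NF.SysEuler

/-! Euler products with quadratic factors of weight one over an abstract system of norms. -/

set_option autoImplicit false

namespace Pool.Agent.H341R2

open Complex Filter Topology Polynomial

namespace NormSys

variable (S : NormSys)

/-- the quadratic local factor -/
noncomputable def lfac (A δ : S.X → ℂ) (p : S.X) (s : ℂ) : ℂ :=
  1 - A p * ((S.N p : ℕ) : ℂ) ^ (-s) + δ p * ((S.N p : ℕ) : ℂ) ^ (1 - 2 * s)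

theorem cpow_one_sub (p : S.X) (s : ℂ) :
    ((S.N p : ℕ) : ℂ) ^ (1 - 2 * s) = ((S.N p : ℕ) : ℂ) * (((S.N p : ℕ) : ℂ) ^ (-s)) ^ 2 := by
  have h0 := S.N_ne p
  rw [show (1 : ℂ) - 2 * s = 1 + (-s + -s) by ring, Complex.cpow_add _ _ h0,
    Complex.cpow_add _ _ h0, Complex.cpow_one]
  ring

theorem sqrt_inv (p : S.X) : (S.N p : ℝ) ^ (-(1 / 2) : ℝ) = (Real.sqrt (S.N p))⁻¹ := by
  rw [Real.sqrt_eq_rpow, ← Real.rpow_neg (S.N_pos p).le]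

theorem two_sided_quad {Good : S.X → Prop} [DecidablePred Good]
    (hfin : {p | ¬ Good p}.Finite) (A δ : S.X → ℂ)
    (hA : ∀ p, Good p → ‖A p‖ ≤ 2 * Real.sqrt (S.N p)) (hδ : ∀ p, Good p → δ p = 1)
    (h5 : ∀ p, Good p → 5 ≤ S.N p) (hA' : ∀ p, ¬ Good p → ‖A p‖ ≤ S.N p)
    (hδ' : ∀ p, ¬ Good p → ‖δ p‖ ≤ 1) (τ : ℝ) {Λ : ℂ → ℂ} (hΛ : MeromorphicAt Λ (3 / 2 + τ * I))
    (hΛL : ∀ᶠ ε : ℝ in 𝓝[>] 0, Λ (3 / 2 + τ * I + ε) =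
      ∏' p : S.X, (S.lfac A δ p (3 / 2 + τ * I + ε))⁻¹) :
    ∃ m : ℤ, meromorphicOrderAt Λ (3 / 2 + τ * I) = m ∧
      ∃ C' : ℝ, ∀ᶠ ε : ℝ in 𝓝[>] 0, |(S.E ε fun p => (if Good p then
        A p * ((Real.sqrt (S.N p) : ℝ) : ℂ)⁻¹ * ((S.N p : ℕ) : ℂ) ^ (-(τ * I)) else 0).re) +
          m * S.lam ε| ≤ C' := by
  classical
  set ρ : ℂ := 3 / 2 + τ * I with hρ
  have hρre : ρ.re = 3 / 2 := by simp [hρ]
  set a : S.X → ℂ := fun p => if Good p then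
        A p * ((Real.sqrt (S.N p) : ℝ) : ℂ)⁻¹ * ((S.N p : ℕ) : ℂ) ^ (-(τ * I)) else 0 with ha
  set z : ℝ → S.X → ℂ := fun ε p => A p * ((S.N p : ℕ) : ℂ) ^ (-(ρ + ε)) -
    ((S.N p : ℕ) : ℂ) ^ (1 - 2 * (ρ + ε)) with hz
  set G : ℝ → S.X → ℂ := fun ε p => -log (1 - z ε p) with hG
  set B : S.X → ℂ[X] := fun p => 1 - C (A p) * Polynomial.X + C (δ p * S.N p) * Polynomial.X ^ 2 with hB
  have hBeval : ∀ p (s : ℂ), (B p).eval (((S.N p : ℕ) : ℂ) ^ (-s)) = S.lfac A δ p s := by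
    intro p s
    unfold lfac
    rw [hB, cpow_one_sub]
    simp only [eval_add, eval_sub, eval_one, eval_mul, eval_C, eval_X, eval_pow]
    ring
  have hsq : ∀ p, Real.sqrt (S.N p) ^ 2 = S.N p := fun p => Real.sq_sqrt (S.N_pos p).le
  have hsq0 : ∀ p, 0 < Real.sqrt (S.N p) := fun p => Real.sqrt_pos.2 (S.N_pos p)
  have hN1 : ∀ p, (1 : ℝ) ≤ S.N p := fun p => by
    exact_mod_cast (by have := S.two_le p; omega : 1 ≤ S.N p)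
  -- the norm of `q^{-ρ-ε}`
  have hX : ∀ (p : S.X) (ε : ℝ), 0 ≤ ε → ‖((S.N p : ℕ) : ℂ) ^ (-(ρ + ε))‖ ≤
      (Real.sqrt (S.N p))⁻¹ * (S.N p : ℝ)⁻¹ := by
    intro p ε hε
    rw [S.norm_cpow, ← S.sqrt_inv, ← Real.rpow_neg_one, ← Real.rpow_add (S.N_pos p)]
    refine Real.rpow_le_rpow_of_exponent_le (hN1 p) ?_
    simp [hρre]
    linarith
  have hX2 : ∀ (p : S.X) (ε : ℝ), 0 ≤ ε → ‖((S.N p : ℕ) : ℂ) ^ (1 - 2 * (ρ + ε))‖ ≤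
      (S.N p : ℝ)⁻¹ ^ 2 := by
    intro p ε hε
    rw [cpow_one_sub, norm_mul, norm_pow]
    have h1 := pow_le_pow_left₀ (norm_nonneg _) (hX p ε hε) 2
    have h2 : ‖((S.N p : ℕ) : ℂ)‖ = S.N p := Complex.norm_natCast _
    rw [h2]
    calc (S.N p : ℝ) * ‖((S.N p : ℕ) : ℂ) ^ (-(ρ + ε))‖ ^ 2
        ≤ (S.N p : ℝ) * ((Real.sqrt (S.N p))⁻¹ * (S.N p : ℝ)⁻¹) ^ 2 :=
          mul_le_mul_of_nonneg_left h1 (S.N_pos p).le
      _ = (S.N p : ℝ) * (Real.sqrt (S.N p) ^ 2)⁻¹ * (S.N p : ℝ)⁻¹ ^ 2 := by ring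
      _ = (S.N p : ℝ)⁻¹ ^ 2 := by
          rw [hsq, mul_inv_cancel₀ (S.N_pos p).ne', one_mul]
  have hzb : ∀ (p : S.X) (ε : ℝ), Good p → 0 < ε → ‖z ε p‖ ≤ 3 * (S.N p : ℝ)⁻¹ := by
    intro p ε hp hε
    have h1 : ‖z ε p‖ ≤ ‖A p‖ * ‖((S.N p : ℕ) : ℂ) ^ (-(ρ + ε))‖ +
        ‖((S.N p : ℕ) : ℂ) ^ (1 - 2 * (ρ + ε))‖ := by
      refine (norm_sub_le _ _).trans ?_
      rw [norm_mul]
    have h2 : ‖A p‖ * ‖((S.N p : ℕ) : ℂ) ^ (-(ρ + ε))‖ ≤ 2 * (S.N p : ℝ)⁻¹ := by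
      calc ‖A p‖ * ‖((S.N p : ℕ) : ℂ) ^ (-(ρ + ε))‖
          ≤ (2 * Real.sqrt (S.N p)) * ((Real.sqrt (S.N p))⁻¹ * (S.N p : ℝ)⁻¹) :=
            mul_le_mul (hA p hp) (hX p ε hε.le) (norm_nonneg _) (by positivity)
        _ = 2 * (Real.sqrt (S.N p) * (Real.sqrt (S.N p))⁻¹) * (S.N p : ℝ)⁻¹ := by ring
        _ = 2 * (S.N p : ℝ)⁻¹ := by rw [mul_inv_cancel₀ (hsq0 p).ne', mul_one]
    have h3 : (S.N p : ℝ)⁻¹ ^ 2 ≤ (S.N p : ℝ)⁻¹ := by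
      have h4 : (S.N p : ℝ)⁻¹ ≤ 1 := inv_le_one_of_one_le₀ (hN1 p)
      have h5 : 0 ≤ (S.N p : ℝ)⁻¹ := by positivity
      nlinarith
    linarith [hX2 p ε hε.le]
  have hz1 : ∀ (p : S.X) (ε : ℝ), Good p → 0 < ε → ‖z ε p‖ ≤ 3 / 5 := by
    intro p ε hp hε
    refine (hzb p ε hp hε).trans ?_
    have h6 : (5 : ℝ) ≤ S.N p := by exact_mod_cast h5 p hp
    have h7 : (S.N p : ℝ)⁻¹ ≤ 5⁻¹ := inv_anti₀ (by norm_num) h6
    linarith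
  have hexp : ∀ (p : S.X) (ε : ℝ), Good p → 0 < ε → cexp (G ε p) = (S.lfac A δ p (ρ + ε))⁻¹ := by
    intro p ε hp hε
    have h1 : (1 : ℂ) - z ε p ≠ 0 := by
      intro h
      have h2 : z ε p = 1 := (sub_eq_zero.1 h).symm
      have h3 := hz1 p ε hp hε
      rw [h2, norm_one] at h3
      norm_num at h3
    rw [hG]
    simp only
    rw [Complex.exp_neg, Complex.exp_log h1]
    congr 1
    unfold lfac
    rw [hδ p hp, hz]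
    ring
  have hΛL' : ∀ᶠ ε : ℝ in 𝓝[>] 0, Λ (ρ + ε) = ∏' p : S.X, if Good p then cexp (G ε p) else
      ((B p).eval (((S.N p : ℕ) : ℂ) ^ (-(ρ + ε))))⁻¹ := by
    filter_upwards [hΛL, self_mem_nhdsWithin] with ε h1 h2
    have hε : (0 : ℝ) < ε := h2
    rw [h1]
    refine tprod_congr fun p => ?_
    by_cases hp : Good p
    · rw [if_pos hp, hexp p ε hp hε]
    · rw [if_neg hp, hBeval]
  refine S.two_sided hfin B ρ ?_ a (K := 2) ?_ ?_ G (C := 20) ?_ hΛ hΛL'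
  · intro p hp
    rw [hBeval]
    have hb := hX p 0 le_rfl
    have hb2 := hX2 p 0 le_rfl
    rw [Complex.ofReal_zero, add_zero] at hb hb2
    unfold lfac
    intro h0
    have h1 : (1 : ℂ) = A p * ((S.N p : ℕ) : ℂ) ^ (-ρ) - δ p * ((S.N p : ℕ) : ℂ) ^ (1 - 2 * ρ) := by
      linear_combination h0
    have h2 := congrArg norm h1
    rw [norm_one] at h2
    have h3 : ‖A p * ((S.N p : ℕ) : ℂ) ^ (-ρ) - δ p * ((S.N p : ℕ) : ℂ) ^ (1 - 2 * ρ)‖ ≤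
        (Real.sqrt (S.N p))⁻¹ + (S.N p : ℝ)⁻¹ ^ 2 := by
      refine (norm_sub_le _ _).trans ?_
      rw [norm_mul, norm_mul]
      have h4 : ‖A p‖ * ‖((S.N p : ℕ) : ℂ) ^ (-ρ)‖ ≤ (Real.sqrt (S.N p))⁻¹ := by
        calc ‖A p‖ * ‖((S.N p : ℕ) : ℂ) ^ (-ρ)‖
            ≤ S.N p * ((Real.sqrt (S.N p))⁻¹ * (S.N p : ℝ)⁻¹) :=
              mul_le_mul (hA' p hp) hb (norm_nonneg _) (S.N_pos p).le
          _ = (S.N p * (S.N p : ℝ)⁻¹) * (Real.sqrt (S.N p))⁻¹ := by ring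
          _ = (Real.sqrt (S.N p))⁻¹ := by rw [mul_inv_cancel₀ (S.N_pos p).ne', one_mul]
      have h5 : ‖δ p‖ * ‖((S.N p : ℕ) : ℂ) ^ (1 - 2 * ρ)‖ ≤ 1 * (S.N p : ℝ)⁻¹ ^ 2 :=
        mul_le_mul (hδ' p hp) hb2 (norm_nonneg _) (by norm_num)
      linarith
    have hN2 : (2 : ℝ) ≤ S.N p := by exact_mod_cast S.two_le p
    have h6 : (Real.sqrt (S.N p))⁻¹ ≤ 0.71 := by
      have : (1.41 : ℝ) ≤ Real.sqrt (S.N p) := by
        apply Real.le_sqrt_of_sq_le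
        norm_num
        linarith
      calc (Real.sqrt (S.N p))⁻¹ ≤ (1.41 : ℝ)⁻¹ := inv_anti₀ (by norm_num) this
        _ ≤ 0.71 := by norm_num
    have h7 : (S.N p : ℝ)⁻¹ ^ 2 ≤ 0.25 := by
      have h8 : (S.N p : ℝ)⁻¹ ≤ 2⁻¹ := inv_anti₀ (by norm_num) hN2
      have h9 : 0 ≤ (S.N p : ℝ)⁻¹ := by positivity
      nlinarith
    linarith
  · intro p
    rw [ha]
    simp only
    split_ifs with hp
    · rw [norm_mul, norm_mul, norm_inv, Complex.norm_real, Real.norm_eq_abs,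
        abs_of_pos (hsq0 p)]
      have h1 : ‖((S.N p : ℕ) : ℂ) ^ (-(τ * I))‖ = 1 := by
        have := S.norm_cpow_I p (-τ)
        simpa using this
      rw [h1, mul_one]
      calc ‖A p‖ * (Real.sqrt (S.N p))⁻¹ ≤ 2 * Real.sqrt (S.N p) * (Real.sqrt (S.N p))⁻¹ :=
            mul_le_mul_of_nonneg_right (hA p hp) (inv_nonneg.2 (hsq0 p).le)
        _ = 2 := by rw [mul_assoc, mul_inv_cancel₀ (hsq0 p).ne', mul_one]
    · simp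
  · intro p hp
    rw [ha]
    simp only [if_neg hp]
  · intro ε hε p hp
    have h1 : a p * (((S.N p : ℝ) ^ (-(1 + ε)) : ℝ) : ℂ) =
        A p * ((S.N p : ℕ) : ℂ) ^ (-(ρ + ε)) := by
      rw [ha]
      simp only [if_pos hp]
      have h0 := S.N_ne p
      have h2 : ((Real.sqrt (S.N p) : ℝ) : ℂ)⁻¹ = ((S.N p : ℕ) : ℂ) ^ (-(1 / 2) : ℂ) := by
        rw [← Complex.ofReal_inv, ← S.sqrt_inv, Complex.ofReal_cpow (S.N_pos p).le]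
        push_cast
        rfl
      have h3 : (((S.N p : ℝ) ^ (-(1 + ε)) : ℝ) : ℂ) = ((S.N p : ℕ) : ℂ) ^ (-(1 + ε) : ℂ) := by
        rw [Complex.ofReal_cpow (S.N_pos p).le]
        push_cast
        rfl
      rw [h2, h3, mul_assoc, mul_assoc, ← Complex.cpow_add _ _ h0, ← Complex.cpow_add _ _ h0]
      congr 2
      rw [hρ]
      ring
    rw [h1]
    have h2 := hz1 p ε hp hε
    have h3 := hzb p ε hp hε
    have h4 : ‖log (1 - z ε p) + z ε p‖ ≤ ‖z ε p‖ ^ 2 * (1 - ‖z ε p‖)⁻¹ / 2 := by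
      have := Complex.norm_log_one_add_sub_self_le (z := -z ε p) (by rw [norm_neg]; linarith)
      rw [norm_neg] at this
      simpa [sub_eq_add_neg] using this
    have h5 : ‖z ε p‖ ^ 2 * (1 - ‖z ε p‖)⁻¹ / 2 ≤ 2 * (3 * (S.N p : ℝ)⁻¹) ^ 2 := by
      have h6 : (1 - ‖z ε p‖)⁻¹ ≤ 3 := by
        rw [inv_le_comm₀ (by linarith) (by norm_num)]
        linarith
      have h7 : ‖z ε p‖ ^ 2 ≤ (3 * (S.N p : ℝ)⁻¹) ^ 2 := pow_le_pow_left₀ (norm_nonneg _) h3 2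
      have h8 : 0 ≤ (1 - ‖z ε p‖)⁻¹ := inv_nonneg.2 (by linarith)
      nlinarith [norm_nonneg (z ε p), mul_le_mul h7 h6 h8 (by positivity)]
    have h9 : G ε p - A p * ((S.N p : ℕ) : ℂ) ^ (-(ρ + ε)) =
        -(log (1 - z ε p) + z ε p) - ((S.N p : ℕ) : ℂ) ^ (1 - 2 * (ρ + ε)) := by
      rw [hG, hz]
      ring
    rw [h9]
    refine (norm_sub_le _ _).trans ?_
    rw [norm_neg]
    have h10 : (S.N p : ℝ) ^ (-2 : ℝ) = (S.N p : ℝ)⁻¹ ^ 2 := by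
      rw [Real.rpow_neg (S.N_pos p).le, inv_pow]
      norm_num
    rw [h10]
    have h11 := hX2 p ε hε.le
    have h12 : 0 ≤ (S.N p : ℝ)⁻¹ ^ 2 := by positivity
    nlinarith

end NormSys

end Pool.Agent.H341R2
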