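import Pool.Agent.H21.L.R_seed8.H341R2.NF.TwistEC
import Pool.Agent.H21.L.R_seed8.H341R2.NF.QuadEuler
import Pool.Agent.H21.L.R_seed8.H341R2.NF.Bessel2

/-! Orders at the edge of the L-series of the quadratic twists of an elliptic curve over a number
field. -/

set_option autoImplicit false

namespace Pool.Agent.H341R2.EC

open NumberField IsDedekindDomain Pool.Agent.H921R2.TatePole Pool.Agent.H341R2
open Complex Filter Topology ComplexConjugate

variable {K : Type} [Field K] [NumberField K]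

/-- `N v - #affine points mod v` -/
noncomputable def trc (M : HeightOneSpectrum (𝓞 K) → WeierstrassCurve (𝓞 K))
    (v : HeightOneSpectrum (𝓞 K)) : ℤ := (nm v : ℤ) - (aff (red v (M v)) : ℤ)

open Classical in
/-- `1` or `0` according as the model has good or bad reduction -/
noncomputable def dlt (M : HeightOneSpectrum (𝓞 K) → WeierstrassCurve (𝓞 K))
    (v : HeightOneSpectrum (𝓞 K)) : ℂ := if (M v).Δ ∈ v.asIdeal then 0 else 1

theorem conj_nm (v : HeightOneSpectrum (𝓞 K)) (τ : ℝ) :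
    conj (((nm v : ℕ) : ℂ) ^ ((τ : ℂ) * I)) = ((nm v : ℕ) : ℂ) ^ (-((τ : ℂ) * I)) :=
  (sysK K).conj_cpow_I v τ

theorem conj_w (d : 𝓞 K) (v : HeightOneSpectrum (𝓞 K)) (τ : ℝ) :
    conj ((chi d v : ℂ) * ((nm v : ℕ) : ℂ) ^ ((τ : ℂ) * I)) =
      (chi d v : ℂ) * ((nm v : ℕ) : ℂ) ^ (-((τ : ℂ) * I)) := by
  rw [map_mul, conj_nm, map_intCast]

theorem five_le_v {v : HeightOneSpectrum (𝓞 K)} (h6 : (6 : 𝓞 K) ∉ v.asIdeal) : 5 ≤ nm v := by
  have h6' : (6 : 𝓞 K ⧸ v.asIdeal) ≠ 0 := by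
    have := mk_ne h6
    rwa [map_ofNat] at this
  have := five_le_card h6'
  rwa [card_v] at this

theorem trc_le (M : HeightOneSpectrum (𝓞 K) → WeierstrassCurve (𝓞 K))
    (v : HeightOneSpectrum (𝓞 K)) : |trc M v| ≤ nm v := by
  have h1 := aff_le (red v (M v))
  rw [card_v] at h1
  unfold trc
  rw [abs_le]
  constructor <;> omega

theorem orth_eq (d e : 𝓞 K) (v : HeightOneSpectrum (𝓞 K)) (τ σ : ℝ) :
    (chi d v : ℂ) * ((nm v : ℕ) : ℂ) ^ ((τ : ℂ) * I) *
      ((chi e v : ℂ) * ((nm v : ℕ) : ℂ) ^ (-((σ : ℂ) * I))) =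
      ((chi (d * e) v : ℝ) : ℂ) * (((nm v : ℕ) : ℂ) ^ (-(((σ - τ : ℝ) : ℂ) * I))) := by
  have h0 : ((nm v : ℕ) : ℂ) ≠ 0 := (sysK K).N_ne v
  have h5 : ((nm v : ℕ) : ℂ) ^ (-(((σ - τ : ℝ) : ℂ) * I)) =
      ((nm v : ℕ) : ℂ) ^ ((τ : ℂ) * I) * ((nm v : ℕ) : ℂ) ^ (-((σ : ℂ) * I)) := by
    rw [← Complex.cpow_add _ _ h0]
    congr 1
    push_cast
    ring
  rw [h5, chi_mul]
  push_cast
  ring

theorem twist_orders (E : WeierstrassCurve K) (hE : E.IsElliptic) {κ : Type*} (T : Finset κ)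
    (d : κ → 𝓞 K) (τ : κ → ℝ) (hd0 : ∀ k ∈ T, d k ≠ 0)
    (hsep : ∀ k ∈ T, ∀ l ∈ T, k ≠ l → IsSquare ((d k * d l : 𝓞 K) : K) → τ k ≠ τ l)
    (M : κ → HeightOneSpectrum (𝓞 K) → WeierstrassCurve (𝓞 K))
    (hM : ∀ k ∈ T, ∀ v, IsMinAt (twist E (d k)) v (M k v)) (Λ : κ → ℂ → ℂ)
    (hΛ : ∀ k ∈ T, MeromorphicAt (Λ k) (3 / 2 + τ k * I))
    (hΛL : ∀ k ∈ T, ∀ᶠ ε : ℝ in 𝓝[>] 0, Λ k (3 / 2 + τ k * I + ε) =
      ∏' p, ((sysK K).lfac (fun v => (trc (M k) v : ℂ)) (dlt (M k)) p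
        (3 / 2 + τ k * I + ε))⁻¹) :
    ∃ m : κ → ℤ, (∀ k ∈ T, meromorphicOrderAt (Λ k) (3 / 2 + τ k * I) = m k) ∧
      ∑ k ∈ T, (m k) ^ 2 ≤ 4 := by
  classical
  obtain ⟨l, P, Q, hl, hP, hQ, hD⟩ := exists_integral E hE
  set Good : κ → HeightOneSpectrum (𝓞 K) → Prop := fun k v =>
    (6 : 𝓞 K) ∉ v.asIdeal ∧ d k ∉ v.asIdeal ∧ P ^ 3 - Q ^ 2 ∉ v.asIdeal with hGood
  have hfin : ∀ k ∈ T, {v | ¬ Good k v}.Finite := by
    intro k hk
    have h6 : (6 : 𝓞 K) ≠ 0 := by norm_num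
    refine (((finite_mem h6).union (finite_mem (hd0 k hk))).union (finite_mem hD)).subset ?_
    intro v hv
    have hv' : ¬ Good k v := hv
    rw [hGood] at hv'
    simp only [not_and_or, not_not] at hv'
    rcases hv' with h | h | h
    · exact Or.inl (Or.inl h)
    · exact Or.inl (Or.inr h)
    · exact Or.inr h
  have hsq0 : ∀ v : HeightOneSpectrum (𝓞 K), 0 < Real.sqrt (nm v) := fun v =>
    Real.sqrt_pos.2 (by exact_mod_cast (by have := two_le_nm v; omega : 0 < nm v))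
  have htr : ∀ k ∈ T, ∀ v, Good k v → trc (M k) v = -(chi (d k) v * csumv P Q v) := by
    intro k hk v hv
    have := (count_good hl hP hQ (hM k hk v) hv.1 hv.2.1 hv.2.2).2
    unfold trc
    rw [this]
    ring
  have hchi1 : ∀ (k : κ) (v : HeightOneSpectrum (𝓞 K)), |(chi (d k) v : ℝ)| ≤ 1 := fun k v =>
    chi_abs (d k) v
  have hex : ∀ k : κ, ∃ m : ℤ, k ∈ T → meromorphicOrderAt (Λ k) (3 / 2 + τ k * I) = m ∧
      ∃ C' : ℝ, ∀ᶠ ε : ℝ in 𝓝[>] 0, |((sysK K).E ε fun p => (if Good k p then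
        (trc (M k) p : ℂ) * ((Real.sqrt ((sysK K).N p) : ℝ) : ℂ)⁻¹ *
          (((sysK K).N p : ℕ) : ℂ) ^ (-(τ k * I)) else 0).re) + m * (sysK K).lam ε| ≤ C' := by
    intro k
    by_cases hk : k ∈ T
    · obtain ⟨m, h1, h2⟩ := (sysK K).two_sided_quad (Good := Good k) (hfin k hk)
        (fun v => (trc (M k) v : ℂ)) (dlt (M k)) (by
          intro v hv
          rw [htr k hk v hv]
          push_cast
          rw [norm_neg, norm_mul, Complex.norm_intCast, Complex.norm_intCast]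
          have h1 := csumv_bound (P := P) (Q := Q) hv.1 hv.2.2
          have h2 := hchi1 k v
          calc |(chi (d k) v : ℝ)| * |(csumv P Q v : ℝ)| ≤ 1 * (2 * Real.sqrt (nm v)) :=
                mul_le_mul h2 h1 (abs_nonneg _) (by norm_num)
            _ = 2 * Real.sqrt (nm v) := one_mul _) (by
          intro v hv
          have := (count_good hl hP hQ (hM k hk v) hv.1 hv.2.1 hv.2.2).1
          unfold dlt
          rw [if_neg this]) (by
          intro v hv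
          exact five_le_v hv.1) (by
          intro v _
          rw [Complex.norm_intCast]
          have h2 : |trc (M k) v| ≤ nm v := trc_le (M k) v
          have h3 : (|(trc (M k) v : ℤ)| : ℝ) ≤ ((nm v : ℕ) : ℝ) := by exact_mod_cast h2
          exact h3) (by
          intro v _
          unfold dlt
          split_ifs <;> simp) (τ k) (hΛ k hk) (hΛL k hk)
      exact ⟨m, fun _ => ⟨h1, h2⟩⟩
    · exact ⟨0, fun h => absurd h hk⟩
  choose m hm using hex
  refine ⟨m, fun k hk => (hm k hk).1, ?_⟩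
  -- the coefficients
  set t : HeightOneSpectrum (𝓞 K) → ℂ := fun v =>
    if (6 : 𝓞 K) ∉ v.asIdeal ∧ P ^ 3 - Q ^ 2 ∉ v.asIdeal then
      -(csumv P Q v : ℂ) * ((Real.sqrt (nm v) : ℝ) : ℂ)⁻¹ else 0 with ht
  set w : κ → HeightOneSpectrum (𝓞 K) → ℂ := fun k v =>
    (chi (d k) v : ℂ) * ((nm v : ℕ) : ℂ) ^ ((τ k : ℂ) * I) with hw
  have hcoef : ∀ k ∈ T, ∀ v, (if Good k v then
        (trc (M k) v : ℂ) * ((Real.sqrt ((sysK K).N v) : ℝ) : ℂ)⁻¹ *
          (((sysK K).N v : ℕ) : ℂ) ^ (-(τ k * I)) else 0) = t v * conj (w k v) := by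
    intro k hk v
    have hconj : conj (w k v) = (chi (d k) v : ℂ) * ((nm v : ℕ) : ℂ) ^ (-((τ k : ℂ) * I)) := by
      rw [hw]
      exact conj_w (d k) v (τ k)
    rw [hconj]
    by_cases hv : Good k v
    · rw [if_pos hv, ht]
      simp only
      rw [if_pos ⟨hv.1, hv.2.2⟩, htr k hk v hv]
      push_cast
      have : (sysK K).N v = nm v := rfl
      rw [this]
      ring
    · rw [if_neg hv]
      by_cases h1 : (6 : 𝓞 K) ∉ v.asIdeal ∧ P ^ 3 - Q ^ 2 ∉ v.asIdeal
      · have h2 : d k ∈ v.asIdeal := by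
          by_contra h3
          exact hv ⟨h1.1, h3, h1.2⟩
        have h3 : chi (d k) v = 0 := by
          unfold chi
          rw [Ideal.Quotient.eq_zero_iff_mem.2 h2]
          simp
        rw [h3]
        simp
      · rw [ht]
        simp only
        rw [if_neg h1, zero_mul]
  have hres := (sysK K).bessel' T t w (fun k => (m k : ℝ)) 2 (by
      intro v
      rw [ht]
      simp only
      split_ifs with h1
      · rw [norm_mul, norm_neg, norm_inv, Complex.norm_intCast, Complex.norm_real,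
          Real.norm_eq_abs, abs_of_pos (hsq0 v)]
        have h2 := csumv_bound (P := P) (Q := Q) h1.1 h1.2
        calc |(csumv P Q v : ℝ)| * (Real.sqrt (nm v))⁻¹
            ≤ 2 * Real.sqrt (nm v) * (Real.sqrt (nm v))⁻¹ :=
              mul_le_mul_of_nonneg_right h2 (inv_nonneg.2 (hsq0 v).le)
          _ = 2 := by rw [mul_assoc, mul_inv_cancel₀ (hsq0 v).ne', mul_one]
      · simp) (by
      intro k v
      rw [hw]
      simp only
      rw [norm_mul, Complex.norm_intCast]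
      have : ‖((nm v : ℕ) : ℂ) ^ ((τ k : ℂ) * I)‖ = 1 := (sysK K).norm_cpow_I v (τ k)
      rw [this, mul_one]
      exact hchi1 k v) (by
      intro k hk j hj hkj
      have hne : d k * d j ≠ 0 := mul_ne_zero (hd0 k hk) (hd0 j hj)
      have h1 : ¬ IsSquare ((d k * d j : 𝓞 K) : K) ∨ τ j - τ k ≠ 0 := by
        by_cases h2 : IsSquare ((d k * d j : 𝓞 K) : K)
        · exact Or.inr (sub_ne_zero.2 (hsep k hk j hj hkj h2).symm)
        · exact Or.inl h2
      have h3 := negl_chi hne (τ j - τ k) h1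
      convert h3 using 2 with v
      have h4 : w k v * conj (w j v) = ((chi (d k * d j) v : ℝ) : ℂ) *
          (((nm v : ℕ) : ℂ) ^ (-(((τ j - τ k : ℝ) : ℂ) * I))) := by
        have hconj : conj (w j v) = (chi (d j) v : ℂ) * ((nm v : ℕ) : ℂ) ^ (-((τ j : ℂ) * I)) :=
          conj_w (d j) v (τ j)
        rw [hconj]
        exact orth_eq (d k) (d j) v (τ k) (τ j)
      rw [h4, Complex.re_ofReal_mul]) (by
      intro k hk η hη
      obtain ⟨-, C', hC'⟩ := hm k hk
      filter_upwards [hC', (sysK K).lam_tendsto.eventually_ge_atTop (|(m k : ℝ)| * C' / η),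
        self_mem_nhdsWithin] with ε h1 h2 h3
      have h4 : ((sysK K).E ε fun p => (t p * conj (w k p)).re) =
          ((sysK K).E ε fun p => (if Good k p then
        (trc (M k) p : ℂ) * ((Real.sqrt ((sysK K).N p) : ℝ) : ℂ)⁻¹ *
          (((sysK K).N p : ℕ) : ℂ) ^ (-(τ k * I)) else 0).re) := by
        congr 1
        funext v
        rw [hcoef k hk v]
      rw [h4]
      rw [div_le_iff₀ hη] at h2
      set x := ((sysK K).E ε fun p => (if Good k p then
        (trc (M k) p : ℂ) * ((Real.sqrt ((sysK K).N p) : ℝ) : ℂ)⁻¹ *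
          (((sysK K).N p : ℕ) : ℂ) ^ (-(τ k * I)) else 0).re) with hx
      have h5 : (m k : ℝ) * (x + m k * (sysK K).lam ε) ≤ |(m k : ℝ)| * C' := by
        refine (le_abs_self _).trans ?_
        rw [abs_mul]
        exact mul_le_mul_of_nonneg_left h1 (abs_nonneg _)
      nlinarith)
  have h2 : ((∑ k ∈ T, (m k) ^ 2 : ℤ) : ℝ) ≤ ((4 : ℤ) : ℝ) := by
    push_cast
    norm_num at hres
    exact hres
  exact_mod_cast h2

end Pool.Agent.H341R2.EC
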