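import Pool.Agent.H21.L.R_seed8.H341R2.NF.Sys

/-! Abel summation: mean values over primes imply mean values at the edge. -/

set_option autoImplicit false

namespace Pool.Agent.H341R2

open Complex Filter Topology MeasureTheory Finset

namespace Abel

/-- partial sums of `r` over primes -/
noncomputable def AA (r : ℕ → ℝ) (N : ℕ) : ℝ := ∑ p ∈ (range (N + 1)).filter Nat.Prime, r p

theorem sum_Icc (r : ℕ → ℝ) (N : ℕ) :
    ∑ k ∈ Icc 1 N, (if k.Prime then (r k : ℂ) else 0) = ((AA r N : ℝ) : ℂ) := by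
  unfold AA
  rw [← sum_filter]
  push_cast
  apply sum_congr _ fun _ _ => rfl
  ext p
  simp only [mem_filter, mem_Icc, mem_range]
  constructor
  · rintro ⟨⟨_, h⟩, hp⟩; exact ⟨by omega, hp⟩
  · rintro ⟨h, hp⟩; exact ⟨⟨hp.one_lt.le, by omega⟩, hp⟩

theorem AA_one (N : ℕ) : AA (fun _ => 1) N = Nat.primeCounting N := by
  unfold AA Nat.primeCounting Nat.primeCounting'
  rw [Nat.count_eq_card_filter_range]
  simp

theorem AA_le {r : ℕ → ℝ} {B : ℝ} (hr : ∀ n, |r n| ≤ B) (N : ℕ) : |AA r N| ≤ B * N := by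
  have hB : 0 ≤ B := (abs_nonneg _).trans (hr 0)
  unfold AA
  refine (abs_sum_le_sum_abs _ _).trans ?_
  have h1 : (range (N + 1)).filter Nat.Prime ⊆ Icc 1 N := by
    intro p hp
    simp only [mem_filter, mem_Icc, mem_range] at hp ⊢
    exact ⟨hp.2.one_lt.le, by omega⟩
  calc ∑ p ∈ (range (N + 1)).filter Nat.Prime, |r p| ≤
      ∑ p ∈ (range (N + 1)).filter Nat.Prime, B := sum_le_sum fun p _ => hr p
    _ = ((range (N + 1)).filter Nat.Prime).card * B := by rw [sum_const, nsmul_eq_mul]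
    _ ≤ N * B := by
        refine mul_le_mul_of_nonneg_right ?_ hB
        have := card_le_card h1
        rw [Nat.card_Icc] at this
        exact_mod_cast this
    _ = B * N := mul_comm _ _

theorem bigO {r : ℕ → ℝ} {B : ℝ} (hr : ∀ n, |r n| ≤ B) :
    (fun n : ℕ => ∑ k ∈ Icc 1 n, (if k.Prime then (r k : ℂ) else 0)) =O[atTop]
      fun n : ℕ => (n : ℝ) ^ (1 : ℝ) := by
  apply Asymptotics.IsBigO.of_bound B
  filter_upwards with N
  rw [sum_Icc, Complex.norm_real, Real.rpow_one, Real.norm_eq_abs, Real.norm_eq_abs,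
    abs_of_nonneg (Nat.cast_nonneg N : (0 : ℝ) ≤ N)]
  exact AA_le hr N

theorem tsum_primes (r : ℕ → ℝ) (s : ℂ) :
    LSeries (fun k : ℕ => if k.Prime then (r k : ℂ) else 0) s =
      ∑' p : Nat.Primes, (r p : ℂ) * ((p : ℕ) : ℂ) ^ (-s) := by
  unfold LSeries
  have h1 : Function.support (LSeries.term (fun k : ℕ => if k.Prime then (r k : ℂ) else 0) s) ⊆
      {n : ℕ | n.Prime} := by
    intro n hn
    by_contra h
    apply hn
    have h' : ¬ n.Prime := h
    rcases eq_or_ne n 0 with rfl | h0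
    · simp
    · rw [LSeries.term_of_ne_zero h0, if_neg h', zero_div]
  rw [← tsum_subtype_eq_of_support_subset h1]
  refine tsum_congr fun p => ?_
  have hp : Nat.Prime (p : ℕ) := p.2
  rw [LSeries.term_of_ne_zero hp.ne_zero, if_pos hp, Complex.cpow_neg, div_eq_mul_inv]

theorem summable {r : ℕ → ℝ} {B : ℝ} (hr : ∀ n, |r n| ≤ B) {s : ℂ} (hs : 1 < s.re) :
    LSeriesSummable (fun k : ℕ => if k.Prime then (r k : ℂ) else 0) s := by
  apply LSeriesSummable_of_bounded_of_one_lt_re (m := B) _ hs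
  intro n _
  have hB : 0 ≤ B := (abs_nonneg _).trans (hr 0)
  split_ifs
  · rw [Complex.norm_real, Real.norm_eq_abs]
    exact hr n
  · simpa using hB

theorem integral_formula {r : ℕ → ℝ} {B : ℝ} (hr : ∀ n, |r n| ≤ B) {s : ℂ} (hs : 1 < s.re) :
    ∑' p : Nat.Primes, (r p : ℂ) * ((p : ℕ) : ℂ) ^ (-s) =
      s * ∫ t in Set.Ioi (1 : ℝ), ((AA r ⌊t⌋₊ : ℝ) : ℂ) * (t : ℂ) ^ (-(s + 1)) := by
  rw [← tsum_primes, LSeries_eq_mul_integral _ zero_le_one hs (summable hr hs) (bigO hr)]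
  simp_rw [sum_Icc]

theorem meas (r : ℕ → ℝ) : Measurable fun t : ℝ => AA r ⌊t⌋₊ :=
  (measurable_from_nat (f := AA r)).comp Nat.measurable_floor

theorem integrable_aux {r : ℕ → ℝ} {B : ℝ} (hr : ∀ n, |r n| ≤ B) {ε : ℝ} (hε : 0 < ε) :
    IntegrableOn (fun t : ℝ => AA r ⌊t⌋₊ * t ^ (-(2 + ε))) (Set.Ioi 1) := by
  have h1 : IntegrableOn (fun t : ℝ => B * t ^ (-(1 + ε))) (Set.Ioi 1) :=
    (integrableOn_Ioi_rpow_of_lt (by linarith) zero_lt_one).const_mul B
  have hm : AEStronglyMeasurable (fun t : ℝ => AA r ⌊t⌋₊ * t ^ (-(2 + ε)))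
      (volume.restrict (Set.Ioi 1)) := by
    apply Measurable.aestronglyMeasurable
    exact (meas r).mul (measurable_id.pow_const _)
  refine h1.mono' hm ?_
  rw [ae_restrict_iff' measurableSet_Ioi]
  filter_upwards with t ht
  have ht1 : (1 : ℝ) < t := ht
  have ht0 : 0 < t := by linarith
  rw [norm_mul, Real.norm_eq_abs, Real.norm_eq_abs, abs_of_nonneg (Real.rpow_nonneg ht0.le _)]
  have h2 : |AA r ⌊t⌋₊| ≤ B * t := (AA_le hr _).trans
    (mul_le_mul_of_nonneg_left (Nat.floor_le ht0.le) ((abs_nonneg _).trans (hr 0)))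
  calc |AA r ⌊t⌋₊| * t ^ (-(2 + ε)) ≤ B * t * t ^ (-(2 + ε)) :=
        mul_le_mul_of_nonneg_right h2 (Real.rpow_nonneg ht0.le _)
    _ = B * t ^ (-(1 + ε)) := by
        rw [mul_assoc, ← Real.rpow_one_add' ht0.le (by linarith)]
        congr 2
        ring

theorem lam_eq {ε : ℝ} (hε : 0 < ε) :
    lam ε = (1 + ε) * ∫ t in Set.Ioi (1 : ℝ), (AA (fun _ => 1) ⌊t⌋₊) * t ^ (-(2 + ε)) := by
  have h1 := integral_formula (r := fun _ => 1) (B := 1) (by simp) (s := ((1 + ε : ℝ) : ℂ))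
    (by simpa using hε)
  have h2 : ∑' p : Nat.Primes, (((1 : ℝ) : ℝ) : ℂ) * ((p : ℕ) : ℂ) ^ (-((1 + ε : ℝ) : ℂ)) =
      ((lam ε : ℝ) : ℂ) := by
    rw [lam, Complex.ofReal_tsum]
    refine tsum_congr fun p => ?_
    rw [Complex.ofReal_cpow (by positivity)]
    push_cast
    ring
  rw [h2] at h1
  have h3 : ∫ t in Set.Ioi (1 : ℝ), ((AA (fun _ => 1) ⌊t⌋₊ : ℝ) : ℂ) *
      (t : ℂ) ^ (-(((1 + ε : ℝ) : ℂ) + 1)) =
      ((∫ t in Set.Ioi (1 : ℝ), (AA (fun _ => 1) ⌊t⌋₊) * t ^ (-(2 + ε)) : ℝ) : ℂ) := by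
    rw [← integral_complex_ofReal]
    apply setIntegral_congr_fun measurableSet_Ioi
    intro t ht
    have ht1 : (1 : ℝ) < t := ht
    simp only
    push_cast
    rw [Complex.ofReal_cpow (by linarith)]
    congr 2
    push_cast
    ring
  rw [h3] at h1
  exact_mod_cast h1

/-- **Abel summation.** -/
theorem abel {r : ℕ → ℝ} {B : ℝ} (hr : ∀ n, |r n| ≤ B)
    (hmean : Tendsto (fun N : ℕ => AA r N / (Nat.primeCounting N : ℝ)) atTop (𝓝 0)) (τ : ℝ) {η : ℝ}
    (hη : 0 < η) :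
    ∀ᶠ ε : ℝ in 𝓝[>] 0,
      ‖∑' p : Nat.Primes, (r p : ℂ) * ((p : ℕ) : ℂ) ^ (-(1 + ε + τ * I))‖ ≤ η * lam ε := by
  have hB : 0 ≤ B := (abs_nonneg _).trans (hr 0)
  set T : ℝ := 2 + |τ| with hT
  have hT0 : 0 < T := by positivity
  set η' : ℝ := η / (2 * T) with hη'
  have hη'0 : 0 < η' := by positivity
  have hsmall : ∀ᶠ N : ℕ in atTop, |AA r N / (Nat.primeCounting N : ℝ)| < η' := by
    have := hmean.abs
    rw [abs_zero] at this
    exact this.eventually_lt_const hη'0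
  obtain ⟨N0, hN0⟩ := eventually_atTop.1 hsmall
  have hA : ∀ N : ℕ, |AA r N| ≤ η' * AA (fun _ => 1) N + B * (N0 + 2) := by
    intro N
    have hpi : 0 ≤ AA (fun _ => 1) N := by
      rw [AA_one]; positivity
    by_cases hN : N0 + 2 ≤ N
    · have h1 := hN0 N (by omega)
      have hp : (0 : ℝ) < Nat.primeCounting N := by
        have : Nat.primeCounting N ≠ 0 := by
          rw [Ne, Nat.primeCounting_eq_zero_iff]
          omega
        positivity
      rw [abs_div, abs_of_pos hp, div_lt_iff₀ hp] at h1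
      rw [AA_one]
      have : 0 ≤ B * ((N0 : ℝ) + 2) := by positivity
      linarith
    · have h1 := AA_le hr N
      have h2 : (N : ℝ) ≤ N0 + 2 := by
        have : N ≤ N0 + 2 := by omega
        exact_mod_cast this
      have h3 : B * N ≤ B * (N0 + 2) := mul_le_mul_of_nonneg_left h2 hB
      have h4 : 0 ≤ η' * AA (fun _ => 1) N := mul_nonneg hη'0.le hpi
      linarith
  have hlt1 : ∀ᶠ ε : ℝ in 𝓝[>] 0, ε < 1 :=
    nhdsWithin_le_nhds (eventually_lt_nhds (by norm_num))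
  filter_upwards [hlt1, self_mem_nhdsWithin,
    lam_tendsto.eventually_ge_atTop (2 / η * (T * (B * (N0 + 2))))] with ε h1 h2 h3
  have hε : (0 : ℝ) < ε := h2
  set s : ℂ := 1 + ε + τ * I with hs
  have hsre : s.re = 1 + ε := by simp [hs]
  have hsn : ‖s‖ ≤ T := by
    have e1 : s = ((1 + ε : ℝ) : ℂ) + τ * I := by rw [hs]; push_cast; ring
    rw [e1]
    refine (norm_add_le _ _).trans ?_
    rw [Complex.norm_real, norm_mul, Complex.norm_real, Complex.norm_I, mul_one, Real.norm_eq_abs,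
      Real.norm_eq_abs, abs_of_pos (by linarith)]
    linarith
  rw [integral_formula hr (s := s) (by rw [hsre]; linarith), norm_mul]
  have hbound : ‖∫ t in Set.Ioi (1 : ℝ), ((AA r ⌊t⌋₊ : ℝ) : ℂ) * (t : ℂ) ^ (-(s + 1))‖ ≤
      ∫ t in Set.Ioi (1 : ℝ), (η' * (AA (fun _ => 1) ⌊t⌋₊ * t ^ (-(2 + ε))) +
        B * (N0 + 2) * t ^ (-(2 + ε))) := by
    apply norm_integral_le_of_norm_le
    · exact ((integrable_aux (r := fun _ => 1) (B := 1) (by simp) hε).const_mul η').add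
        ((integrableOn_Ioi_rpow_of_lt (by linarith) zero_lt_one).const_mul _)
    · rw [ae_restrict_iff' measurableSet_Ioi]
      filter_upwards with t ht
      have ht1 : (1 : ℝ) < t := ht
      have ht0 : 0 < t := by linarith
      rw [norm_mul, Complex.norm_real, Real.norm_eq_abs, Complex.norm_cpow_eq_rpow_re_of_pos ht0]
      have e2 : (-(s + 1)).re = -(2 + ε) := by
        rw [Complex.neg_re, Complex.add_re, hsre, Complex.one_re]; ring
      rw [e2]
      have h5 := mul_le_mul_of_nonneg_right (hA ⌊t⌋₊) (Real.rpow_nonneg ht0.le (-(2 + ε)))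
      linarith
  have hint : ∫ t in Set.Ioi (1 : ℝ), (η' * (AA (fun _ => 1) ⌊t⌋₊ * t ^ (-(2 + ε))) +
        B * (N0 + 2) * t ^ (-(2 + ε))) = η' * (lam ε / (1 + ε)) + B * (N0 + 2) / (1 + ε) := by
    rw [integral_add, integral_const_mul, integral_const_mul, lam_eq hε,
      integral_Ioi_rpow_of_lt (by linarith) zero_lt_one]
    · rw [Real.one_rpow]
      have : (1 + ε) ≠ 0 := by positivity
      have e3 : -(2 + ε) + 1 = -(1 + ε) := by ring
      rw [e3]
      field_simp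
    · exact (integrable_aux (r := fun _ => 1) (B := 1) (by simp) hε).const_mul η'
    · exact (integrableOn_Ioi_rpow_of_lt (by linarith) zero_lt_one).const_mul _
  rw [hint] at hbound
  have hlam0 : 0 ≤ lam ε := tsum_nonneg fun p => by positivity
  have h6 : η' * (lam ε / (1 + ε)) + B * (N0 + 2) / (1 + ε) ≤ η' * lam ε + B * (N0 + 2) := by
    have h7 : lam ε / (1 + ε) ≤ lam ε := div_le_self hlam0 (by linarith)
    have h8 : B * ((N0 : ℝ) + 2) / (1 + ε) ≤ B * (N0 + 2) := div_le_self (by positivity) (by linarith)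
    have h9 := mul_le_mul_of_nonneg_left h7 hη'0.le
    linarith
  have h10 : ‖s‖ * ‖∫ t in Set.Ioi (1 : ℝ), ((AA r ⌊t⌋₊ : ℝ) : ℂ) * (t : ℂ) ^ (-(s + 1))‖ ≤
      T * (η' * lam ε + B * (N0 + 2)) :=
    mul_le_mul hsn (hbound.trans h6) (norm_nonneg _) hT0.le
  refine h10.trans ?_
  have h11 : T * (η' * lam ε) = η / 2 * lam ε := by
    rw [hη']
    field_simp
  have h12 : T * (B * (N0 + 2)) ≤ η / 2 * lam ε := by
    have := mul_le_mul_of_nonneg_left h3 (by positivity : 0 ≤ η / 2)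
    calc T * (B * (N0 + 2)) = η / 2 * (2 / η * (T * (B * (N0 + 2)))) := by
          field_simp
      _ ≤ _ := this
  rw [mul_add, h11]
  linarith

end Abel

end Pool.Agent.H341R2
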