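import Pool.Agent.H21.L.R_seed8.H341R2.NF.Quad

/-! Orthogonality of quadratic characters of a number field, twisted by powers of the norm. -/

set_option autoImplicit false

namespace Pool.Agent.H341R2

open Complex Filter Topology ComplexConjugate NumberField IsDedekindDomain Polynomial
open Pool.Agent.H921R2.TatePole (nm two_le_nm nm_summable prime_sum_bdd Lam below deg R hc deg_two_bound
  R_eq_hc R_le kerPrime kerPrime_bijective w C0 nm_eq)

section
variable {K : Type} [Field K] [NumberField K]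

theorem isMaximal_v (v : HeightOneSpectrum (𝓞 K)) : v.asIdeal.IsMaximal := v.isMaximal

theorem finite_v (v : HeightOneSpectrum (𝓞 K)) : Finite (𝓞 K ⧸ v.asIdeal) :=
  Ideal.finiteQuotientOfFreeOfNeBot v.asIdeal v.ne_bot

noncomputable instance instFieldV (v : HeightOneSpectrum (𝓞 K)) : Field (𝓞 K ⧸ v.asIdeal) :=
  letI := isMaximal_v v
  Ideal.Quotient.field v.asIdeal

noncomputable instance instFintypeV (v : HeightOneSpectrum (𝓞 K)) : Fintype (𝓞 K ⧸ v.asIdeal) :=
  letI := finite_v v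
  Fintype.ofFinite _

noncomputable instance instDecV (v : HeightOneSpectrum (𝓞 K)) : DecidableEq (𝓞 K ⧸ v.asIdeal) :=
  Classical.decEq _

theorem card_v (v : HeightOneSpectrum (𝓞 K)) : Fintype.card (𝓞 K ⧸ v.asIdeal) = nm v := by
  rw [← Nat.card_eq_fintype_card]
  rfl

/-- the quadratic residue symbol -/
noncomputable def chi (d : 𝓞 K) (v : HeightOneSpectrum (𝓞 K)) : ℤ :=
  quadraticChar (𝓞 K ⧸ v.asIdeal) (Ideal.Quotient.mk v.asIdeal d)

theorem chi_mul (d d' : 𝓞 K) (v : HeightOneSpectrum (𝓞 K)) :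
    chi (d * d') v = chi d v * chi d' v := by
  unfold chi
  rw [map_mul, map_mul]

theorem chi_abs (d : 𝓞 K) (v : HeightOneSpectrum (𝓞 K)) : |(chi d v : ℝ)| ≤ 1 := by
  unfold chi
  by_cases h0 : Ideal.Quotient.mk v.asIdeal d = 0
  · simp [h0]
  · rcases quadraticChar_dichotomy h0 with h | h <;> simp [h]

theorem quadraticChar_congr {F F' : Type*} [Field F] [Fintype F] [DecidableEq F] [Field F']
    [Fintype F'] [DecidableEq F'] (e : F ≃+* F') (a : F) :
    quadraticChar F' (e a) = quadraticChar F a := by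
  rw [quadraticChar_apply, quadraticChar_apply]
  unfold quadraticCharFun
  have h1 : e a = 0 ↔ a = 0 := map_eq_zero_iff e e.injective
  have h2 : IsSquare (e a) ↔ IsSquare a := by
    constructor
    · rintro ⟨b, hb⟩
      refine ⟨e.symm b, ?_⟩
      apply e.injective
      rw [map_mul, RingEquiv.apply_symm_apply, hb]
    · rintro ⟨b, rfl⟩
      exact ⟨e b, map_mul e b b⟩
  simp only [h1, h2]

theorem chi_kerPrime (d : 𝓞 K) (p : Nat.Primes) [Fact (p : ℕ).Prime] (φ : 𝓞 K →+* ZMod (p : ℕ)) :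
    chi d (kerPrime p φ).1.1 = quadraticChar (ZMod (p : ℕ)) (φ d) := by
  let e := RingHom.quotientKerEquivOfSurjective (ZMod.ringHom_surjective φ)
  have h1 : φ d = e (Ideal.Quotient.mk (RingHom.ker φ) d) := rfl
  rw [h1]
  unfold chi
  have h2 : (kerPrime p φ).1.1.asIdeal = RingHom.ker φ := rfl
  exact (quadraticChar_congr (F := 𝓞 K ⧸ (kerPrime p φ).1.1.asIdeal) e _).symm

theorem nm_kerPrime (p : Nat.Primes) (φ : 𝓞 K →+* ZMod (p : ℕ)) :
    nm (kerPrime p φ).1.1 = (p : ℕ) := by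
  have h1 := (nm_eq (kerPrime p φ).1.1).1
  rw [(kerPrime p φ).2, (kerPrime p φ).1.2, pow_one] at h1
  exact h1

theorem PNegl.congr {φ ψ : Nat.Primes → ℝ} {B B' : ℝ} (hφ : PNegl φ)
    (h1 : ∀ p, |φ p| ≤ B) (h2 : ∀ p, |ψ p| ≤ B') {N : ℤ} (hN : N ≠ 0)
    (h : ∀ p : Nat.Primes, ¬ ((p : ℕ) : ℤ) ∣ N → φ p = ψ p) : PNegl ψ := by
  classical
  have hfin : {p : Nat.Primes | ((p : ℕ) : ℤ) ∣ N}.Finite := by
    have h1 : (N.natAbs.primeFactors : Set ℕ).Finite := Finset.finite_toSet _
    refine (h1.preimage (f := fun p : Nat.Primes => (p : ℕ)) ?_).subset ?_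
    · exact fun a _ b _ h => Subtype.ext h
    · intro p hp
      simp only [Set.mem_preimage, Finset.mem_coe, Nat.mem_primeFactors]
      refine ⟨p.2, ?_, Int.natAbs_ne_zero.2 hN⟩
      exact Int.natCast_dvd.1 hp
  have h3 : PNegl fun p => ψ p - φ p := by
    apply PNegl.of_bdd
    refine ⟨∑ p ∈ hfin.toFinset, |ψ p - φ p|, ?_⟩
    filter_upwards [self_mem_nhdsWithin] with ε hε
    have hε' : (0 : ℝ) < ε := hε
    rw [E, tsum_eq_sum (s := hfin.toFinset)]
    · refine (Finset.abs_sum_le_sum_abs _ _).trans (Finset.sum_le_sum fun p _ => ?_)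
      rw [abs_mul, abs_of_nonneg (w_nonneg ε p)]
      refine mul_le_of_le_one_right (abs_nonneg _) ?_
      apply Real.rpow_le_one_of_one_le_of_nonpos
      · exact_mod_cast p.2.one_lt.le
      · linarith
    · intro p hp
      have : ¬ ((p : ℕ) : ℤ) ∣ N := fun h' => hp (hfin.mem_toFinset.2 h')
      rw [h p this, sub_self, zero_mul]
  have h4 := hφ.add h3 h1 (B' := B' + B) (fun p => (abs_sub _ _).trans (add_le_add (h2 p) (h1 p)))
  have h5 : (fun p => φ p + (ψ p - φ p)) = ψ := by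
    funext p; ring
  rwa [h5] at h4

theorem R_rat (p : Nat.Primes) : R ℚ p = 1 := by
  rw [R_eq_hc]
  unfold hc
  have e : (𝓞 ℚ →+* ZMod (p : ℕ)) ≃ (ℤ →+* ZMod (p : ℕ)) :=
    { toFun := fun φ => φ.comp (Rat.ringOfIntegersEquiv.symm : ℤ →+* 𝓞 ℚ)
      invFun := fun φ => φ.comp (Rat.ringOfIntegersEquiv : 𝓞 ℚ →+* ℤ)
      left_inv := fun φ => RingHom.ext fun x => by
        change φ (Rat.ringOfIntegersEquiv.symm (Rat.ringOfIntegersEquiv x)) = φ x
        rw [RingEquiv.symm_apply_apply]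
      right_inv := fun φ => Subsingleton.elim _ _ }
  have : Nonempty (ℤ →+* ZMod (p : ℕ)) := ⟨Int.castRingHom _⟩
  rw [Nat.card_congr e]
  exact Nat.card_unique

theorem abs_re_le (n : ℕ) (hn : 0 < n) (τ : ℝ) : |((n : ℂ) ^ (-(τ * I))).re| ≤ 1 := by
  refine (Complex.abs_re_le_norm _).trans ?_
  rw [Complex.norm_natCast_cpow_of_pos hn]
  simp

/-- mean value zero of nontrivial quadratic characters with imaginary powers of the norm -/
theorem negl_chi {d : 𝓞 K} (hd : d ≠ 0) (τ : ℝ) (h : ¬ IsSquare (d : K) ∨ τ ≠ 0) :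
    (sysK K).Negl fun v => (chi d v : ℝ) * (((nm v : ℕ) : ℂ) ^ (-(τ * I))).re := by
  classical
  have hb : ∀ v : HeightOneSpectrum (𝓞 K),
      |(chi d v : ℝ) * (((nm v : ℕ) : ℂ) ^ (-(τ * I))).re| ≤ 1 := by
    intro v
    rw [abs_mul]
    exact mul_le_one₀ (chi_abs d v) (abs_nonneg _) (abs_re_le _ (by have := two_le_nm v; omega) τ)
  apply negl_of_low hb
  set g : HeightOneSpectrum (𝓞 K) → ℝ :=
    fun v => (chi d v : ℝ) * (((nm v : ℕ) : ℂ) ^ (-(τ * I))).re with hg
  have hlowb : ∀ p, |low g p| ≤ Module.finrank ℚ K := by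
    intro p
    have : Fact (p : ℕ).Prime := ⟨p.2⟩
    have hfin : Finite (𝓞 K →+* ZMod (p : ℕ)) := Pool.Agent.H921R2.TatePole.hom_finite p
    let _ : Fintype (𝓞 K →+* ZMod (p : ℕ)) := Fintype.ofFinite _
    rw [low_eq]
    refine (Finset.abs_sum_le_sum_abs _ _).trans ?_
    refine (Finset.sum_le_sum fun φ _ => hb _).trans ?_
    rw [Finset.sum_const, nsmul_eq_mul, mul_one, Finset.card_univ, ← Nat.card_eq_fintype_card]
    have := R_le (K := K) p
    rw [R_eq_hc] at this
    exact_mod_cast this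
  by_cases hsq : IsSquare (d : K)
  · have hτ : τ ≠ 0 := h.resolve_left (not_not.2 hsq)
    -- the trivial character
    have h1 := negl_R ℚ K τ
    have h2 := negl_tau hτ
    have hp1 : ∀ p : Nat.Primes, |(((p : ℕ) : ℂ) ^ (-(τ * I))).re| ≤ 1 := fun p =>
      abs_re_le _ p.2.pos τ
    have hp2 : ∀ p : Nat.Primes, |((R K p : ℝ) - R ℚ p) * (((p : ℕ) : ℂ) ^ (-(τ * I))).re| ≤
        Module.finrank ℚ K + 1 := by
      intro p
      rw [abs_mul, R_rat]
      refine (mul_le_of_le_one_right (abs_nonneg _) (hp1 p)).trans ?_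
      have := R_le (K := K) p
      have h3 : (R K p : ℝ) ≤ Module.finrank ℚ K := by exact_mod_cast this
      have h4 : (0 : ℝ) ≤ R K p := Nat.cast_nonneg _
      rw [abs_le]
      constructor <;> push_cast <;> linarith
    have h3 := h1.add h2 hp2 hp1
    refine PNegl.congr h3 (B := Module.finrank ℚ K + 1 + 1) (fun p =>
      (abs_add_le _ _).trans (add_le_add (hp2 p) (hp1 p))) hlowb (N0_ne_zero hd) ?_
    intro p hp
    have : Fact (p : ℕ).Prime := ⟨p.2⟩
    have hfin : Finite (𝓞 K →+* ZMod (p : ℕ)) := Pool.Agent.H921R2.TatePole.hom_finite p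
    let _ : Fintype (𝓞 K →+* ZMod (p : ℕ)) := Fintype.ofFinite _
    rw [low_eq]
    have h4 : ∀ φ : 𝓞 K →+* ZMod (p : ℕ), g (kerPrime p φ).1.1 =
        (((p : ℕ) : ℂ) ^ (-(τ * I))).re := by
      intro φ
      rw [hg]
      simp only
      rw [nm_kerPrime, chi_kerPrime]
      have h5 : quadraticChar (ZMod (p : ℕ)) (φ d) = 1 := by
        obtain ⟨b, hb⟩ := hsq
        have hbi : IsIntegral ℤ b := by
          apply IsIntegral.of_pow (by norm_num : 0 < 2)
          rw [sq, ← hb]
          exact RingOfIntegers.isIntegral_coe d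
        obtain ⟨b', hb'⟩ : ∃ b' : 𝓞 K, (b' : K) = b := ⟨⟨b, hbi⟩, rfl⟩
        have h6 : d = b' * b' := RingOfIntegers.ext (by
          rw [hb, ← hb']
          rfl)
        have h7 : φ d ≠ 0 := by
          obtain ⟨c, hc⟩ := dvd_N0 d
          intro h0
          apply hp
          have h8 := congrArg φ hc
          rw [map_mul, map_mul, h0, mul_zero, mul_zero, map_intCast,
            ZMod.intCast_zmod_eq_zero_iff_dvd] at h8
          exact h8
        rw [h6, map_mul]
        rw [h6, map_mul] at h7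
        rw [← sq]
        apply quadraticChar_sq_one'
        intro h0
        rw [h0, mul_zero] at h7
        exact h7 rfl
      rw [h5]
      simp
    rw [Finset.sum_congr rfl fun φ _ => h4 φ, Finset.sum_const, nsmul_eq_mul, Finset.card_univ,
      ← Nat.card_eq_fintype_card]
    have h9 := R_eq_hc (K := K) p
    unfold hc at h9
    rw [← h9, R_rat]
    push_cast
    ring
  · have : Fact (Irreducible (qpoly d)) := ⟨qpoly_irreducible hsq⟩
    have h1 := negl_R K (QF d) τ
    have hp1 : ∀ p : Nat.Primes, |(((p : ℕ) : ℂ) ^ (-(τ * I))).re| ≤ 1 := fun p =>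
      abs_re_le _ p.2.pos τ
    refine PNegl.congr h1 (B := Module.finrank ℚ K + Module.finrank ℚ (QF d)) ?_ hlowb
      (N0_ne_zero hd) ?_
    · intro p
      rw [abs_mul]
      refine (mul_le_of_le_one_right (abs_nonneg _) (hp1 p)).trans ?_
      have h3 : (R K p : ℝ) ≤ Module.finrank ℚ K := by exact_mod_cast R_le (K := K) p
      have h4 : (0 : ℝ) ≤ R K p := Nat.cast_nonneg _
      have h5 : (R (QF d) p : ℝ) ≤ Module.finrank ℚ (QF d) := by exact_mod_cast R_le (K := QF d) p
      have h6 : (0 : ℝ) ≤ R (QF d) p := Nat.cast_nonneg _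
      rw [abs_le]
      constructor <;> linarith
    · intro p hp
      have : Fact (p : ℕ).Prime := ⟨p.2⟩
      have hfin : Finite (𝓞 K →+* ZMod (p : ℕ)) := Pool.Agent.H921R2.TatePole.hom_finite p
      let _ : Fintype (𝓞 K →+* ZMod (p : ℕ)) := Fintype.ofFinite _
      rw [low_eq]
      have h4 : ∀ φ : 𝓞 K →+* ZMod (p : ℕ), g (kerPrime p φ).1.1 =
          (quadraticChar (ZMod (p : ℕ)) (φ d) : ℝ) * (((p : ℕ) : ℂ) ^ (-(τ * I))).re := by
        intro φ
        rw [hg]
        simp only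
        rw [nm_kerPrime, chi_kerPrime]
      rw [Finset.sum_congr rfl fun φ _ => h4 φ, ← Finset.sum_mul]
      congr 1
      have h5 := hc_quad (d := d) (p := p) hp
      rw [Finset.sum_add_distrib, Finset.sum_const, Finset.card_univ, ← Nat.card_eq_fintype_card]
        at h5
      have h9 := R_eq_hc (K := K) p
      have h10 := R_eq_hc (K := QF d) p
      unfold hc at h9
      rw [← h9, ← h10] at h5
      have h11 : ((R (QF d) p : ℤ) : ℝ) = ((∑ φ : 𝓞 K →+* ZMod (p : ℕ),
          quadraticChar (ZMod (p : ℕ)) (φ d) + R K p • (1 : ℤ) : ℤ) : ℝ) := by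
        exact_mod_cast h5
      push_cast at h11
      rw [h11]
      simp
end

end Pool.Agent.H341R2
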