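import Pool.Agent.H21.L.R_seed8.H341R2.PrimeSums

/-! Prime sums over an abstract system of norms (e.g. the primes of a number field), and Bessel's
inequality at the edge of absolute convergence. -/

set_option autoImplicit false

namespace Pool.Agent.H341R2

open Complex Filter Topology ComplexConjugate

/-- A countable family of norms with a logarithmic pole at the edge, such as the norms of the
prime ideals of a number field. -/
structure NormSys where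
  X : Type
  N : X → ℕ
  two_le : ∀ x, 2 ≤ N x
  summable : ∀ r : ℝ, r < -1 → Summable fun x => (N x : ℝ) ^ r
  log_bdd : ∃ C : ℝ, ∀ᶠ ε : ℝ in 𝓝[>] 0, |∑' x, (N x : ℝ) ^ (-(1 + ε)) + Real.log ε| ≤ C

namespace NormSys

variable (S : NormSys)

theorem N_pos (p : S.X) : (0 : ℝ) < S.N p := by
  have := S.two_le p
  exact_mod_cast (by omega : 0 < S.N p)

theorem N_ne (p : S.X) : ((S.N p : ℕ) : ℂ) ≠ 0 := by
  have := S.two_le p
  exact_mod_cast (by omega : S.N p ≠ 0)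

theorem norm_cpow (p : S.X) (s : ℂ) : ‖((S.N p : ℕ) : ℂ) ^ (-s)‖ = (S.N p : ℝ) ^ (-s.re) := by
  rw [Complex.norm_natCast_cpow_of_pos (by have := S.two_le p; omega)]
  simp

theorem norm_cpow_I (p : S.X) (τ : ℝ) : ‖((S.N p : ℕ) : ℂ) ^ (τ * I)‖ = 1 := by
  rw [Complex.norm_natCast_cpow_of_pos (by have := S.two_le p; omega)]
  simp

theorem conj_cpow_I (p : S.X) (τ : ℝ) :
    conj (((S.N p : ℕ) : ℂ) ^ (τ * I)) = ((S.N p : ℕ) : ℂ) ^ (-(τ * I)) := by
  have h0 := S.N_ne p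
  rw [Complex.cpow_def_of_ne_zero h0, Complex.cpow_def_of_ne_zero h0, ← Complex.exp_conj]
  congr 1
  rw [map_mul, map_mul, Complex.conj_I, Complex.conj_ofReal, ← Complex.natCast_log,
    Complex.conj_ofReal]
  ring

/-- the constant `∑ N⁻²` -/
noncomputable def K2 : ℝ := ∑' p : S.X, (S.N p : ℝ) ^ (-2 : ℝ)

/-- `λ(ε) = ∑ N^(-1-ε)` -/
noncomputable def lam (ε : ℝ) : ℝ := ∑' p : S.X, (S.N p : ℝ) ^ (-(1 + ε))

theorem lam_bounded : ∃ C : ℝ, ∀ᶠ ε : ℝ in 𝓝[>] 0, |S.lam ε + Real.log ε| ≤ C := S.log_bdd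

theorem lam_tendsto : Tendsto S.lam (𝓝[>] 0) atTop := by
  obtain ⟨C, hC⟩ := S.lam_bounded
  have h1 : Tendsto (fun ε : ℝ => -Real.log ε - C) (𝓝[>] 0) atTop := by
    have := Real.tendsto_log_nhdsGT_zero
    exact tendsto_atTop_add_const_right _ (-C) (tendsto_neg_atBot_atTop.comp this)
  refine tendsto_atTop_mono' _ ?_ h1
  filter_upwards [hC] with ε hε
  have := (abs_le.1 hε).1
  linarith

theorem nonempty : Nonempty S.X := by
  by_contra h
  rw [not_nonempty_iff] at h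
  obtain ⟨ε, h1⟩ := (S.lam_tendsto.eventually_gt_atTop 0).exists
  unfold lam at h1
  simp at h1

/-- the weighted sum `∑_p φ(p) p^(-1-ε)` -/
noncomputable def E (ε : ℝ) (φ : S.X → ℝ) : ℝ :=
  ∑' p : S.X, φ p * (S.N p : ℝ) ^ (-(1 + ε))

theorem w_nonneg (ε : ℝ) (p : S.X) : 0 ≤ (S.N p : ℝ) ^ (-(1 + ε)) := by positivity

theorem summable_E {ε : ℝ} (hε : 0 < ε) {φ : S.X → ℝ} {B : ℝ} (hφ : ∀ p, |φ p| ≤ B) :
    Summable fun p : S.X => φ p * (S.N p : ℝ) ^ (-(1 + ε)) := by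
  refine Summable.of_norm_bounded ((S.summable (-(1 + ε)) (by linarith)).mul_left B)
    fun p => ?_
  rw [Real.norm_eq_abs, abs_mul, abs_of_nonneg (S.w_nonneg ε p)]
  exact mul_le_mul_of_nonneg_right (hφ p) (S.w_nonneg ε p)

theorem E_le {ε : ℝ} (hε : 0 < ε) {φ : S.X → ℝ} {B : ℝ} (hφ : ∀ p, |φ p| ≤ B) {b : ℝ}
    (hb : ∀ p, φ p ≤ b) : S.E ε φ ≤ b * S.lam ε := by
  rw [E, lam, ← tsum_mul_left]
  refine Summable.tsum_le_tsum (fun p => ?_) (S.summable_E hε hφ)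
    ((S.summable _ (by linarith)).mul_left b)
  exact mul_le_mul_of_nonneg_right (hb p) (S.w_nonneg ε p)

theorem E_nonneg {ε : ℝ} {φ : S.X → ℝ} (hφ : ∀ p, 0 ≤ φ p) : 0 ≤ S.E ε φ :=
  tsum_nonneg fun p => mul_nonneg (hφ p) (S.w_nonneg ε p)

theorem E_add {ε : ℝ} (hε : 0 < ε) {φ ψ : S.X → ℝ} {B B' : ℝ} (hφ : ∀ p, |φ p| ≤ B)
    (hψ : ∀ p, |ψ p| ≤ B') : S.E ε (fun p => φ p + ψ p) = S.E ε φ + S.E ε ψ := by
  rw [E, E, E, ← (S.summable_E hε hφ).tsum_add (S.summable_E hε hψ)]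
  exact tsum_congr fun p => by ring

theorem E_const_mul {ε : ℝ} (c : ℝ) (φ : S.X → ℝ) :
    S.E ε (fun p => c * φ p) = c * S.E ε φ := by
  rw [E, E, ← tsum_mul_left]
  exact tsum_congr fun p => by ring

theorem E_sum {ε : ℝ} (hε : 0 < ε) {κ : Type*} (K : Finset κ) (φ : κ → S.X → ℝ)
    (B : κ → ℝ) (hφ : ∀ k ∈ K, ∀ p, |φ k p| ≤ B k) :
    S.E ε (fun p => ∑ k ∈ K, φ k p) = ∑ k ∈ K, S.E ε (φ k) := by
  simp only [E]
  rw [← Summable.tsum_finsetSum fun k hk => S.summable_E hε (hφ k hk)]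
  exact tsum_congr fun p => by rw [Finset.sum_mul]

/-- Bessel's inequality at the edge. -/
theorem bessel {κ : Type*} [DecidableEq κ] (K : Finset κ) (t : S.X → ℂ)
    (v : κ → S.X → ℂ)
    (m : κ → ℝ) (b : ℝ) (ht : ∀ p, ‖t p‖ ≤ b) (hv : ∀ k p, ‖v k p‖ ≤ 1)
    (horth : ∀ k ∈ K, ∀ l ∈ K, k ≠ l → ∃ C : ℝ, ∀ᶠ ε : ℝ in 𝓝[>] 0,
      |S.E ε fun p => (v k p * conj (v l p)).re| ≤ C)
    (hcorr : ∀ k ∈ K, ∃ C : ℝ, ∀ᶠ ε : ℝ in 𝓝[>] 0,
      m k * (S.E ε fun p => (t p * conj (v k p)).re) ≤ -(m k) ^ 2 * S.lam ε + C) :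
    ∑ k ∈ K, (m k) ^ 2 ≤ b ^ 2 := by
  classical
  have horth' : ∀ k l : κ, ∃ C : ℝ, k ∈ K → l ∈ K → k ≠ l → ∀ᶠ ε : ℝ in 𝓝[>] 0,
      |S.E ε fun p => (v k p * conj (v l p)).re| ≤ C := by
    intro k l
    by_cases h : k ∈ K ∧ l ∈ K ∧ k ≠ l
    · obtain ⟨C, hC⟩ := horth k h.1 l h.2.1 h.2.2
      exact ⟨C, fun _ _ _ => hC⟩
    · exact ⟨0, fun h1 h2 h3 => absurd ⟨h1, h2, h3⟩ h⟩
  have hcorr' : ∀ k : κ, ∃ C : ℝ, k ∈ K → ∀ᶠ ε : ℝ in 𝓝[>] 0,
      m k * (S.E ε fun p => (t p * conj (v k p)).re) ≤ -(m k) ^ 2 * S.lam ε + C := by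
    intro k
    by_cases h : k ∈ K
    · obtain ⟨C, hC⟩ := hcorr k h
      exact ⟨C, fun _ => hC⟩
    · exact ⟨0, fun h1 => absurd h1 h⟩
  choose Co hCo using horth'
  choose Cc hCc using hcorr'
  have ev1 : ∀ᶠ ε : ℝ in 𝓝[>] 0, ∀ k ∈ K, ∀ l ∈ K, k ≠ l →
      |S.E ε fun p => (v k p * conj (v l p)).re| ≤ Co k l := by
    rw [Filter.eventually_all_finset]
    intro k hk
    rw [Filter.eventually_all_finset]
    intro l hl
    by_cases hkl : k = l
    · exact Filter.Eventually.of_forall fun _ h => absurd hkl h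
    · filter_upwards [hCo k l hk hl hkl] with ε h _
      exact h
  have ev2 : ∀ᶠ ε : ℝ in 𝓝[>] 0, ∀ k ∈ K,
      m k * (S.E ε fun p => (t p * conj (v k p)).re) ≤ -(m k) ^ 2 * S.lam ε + Cc k := by
    rw [Filter.eventually_all_finset]
    exact fun k hk => hCc k hk
  set C' : ℝ := 2 * ∑ k ∈ K, Cc k + ∑ k ∈ K, ∑ l ∈ K, |m k * m l| * |Co k l| with hC'
  have key : ∀ᶠ ε : ℝ in 𝓝[>] 0, 0 ≤ (b ^ 2 - ∑ k ∈ K, (m k) ^ 2) * S.lam ε + C' := by
    filter_upwards [ev1, ev2, self_mem_nhdsWithin] with ε h1 h2 h3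
    have hε : 0 < ε := h3
    have hlam : 0 ≤ S.lam ε := tsum_nonneg fun p => S.w_nonneg ε p
    have hb0 : 0 ≤ b := (norm_nonneg _).trans (ht S.nonempty.some)
    -- pointwise identity
    have hpt : ∀ p, ‖t p + ∑ k ∈ K, (m k : ℂ) * v k p‖ ^ 2 =
        ‖t p‖ ^ 2 + (∑ k ∈ K, 2 * (m k * (t p * conj (v k p)).re) +
          ∑ k ∈ K, ∑ l ∈ K, (m k * m l) * (v k p * conj (v l p)).re) := by
      intro p
      have e1 : ‖t p + ∑ k ∈ K, (m k : ℂ) * v k p‖ ^ 2 =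
          ((t p + ∑ k ∈ K, (m k : ℂ) * v k p) * conj (t p + ∑ k ∈ K, (m k : ℂ) * v k p)).re := by
        rw [Complex.mul_conj, Complex.ofReal_re, Complex.normSq_eq_norm_sq]
      have e2 : ‖t p‖ ^ 2 = (t p * conj (t p)).re := by
        rw [Complex.mul_conj, Complex.ofReal_re, Complex.normSq_eq_norm_sq]
      have e3 : ((∑ k ∈ K, (m k : ℂ) * v k p) * conj (t p)).re =
          (t p * conj (∑ k ∈ K, (m k : ℂ) * v k p)).re := by
        rw [← Complex.conj_re, map_mul, Complex.conj_conj, mul_comm]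
      have e4 : (t p * conj (∑ k ∈ K, (m k : ℂ) * v k p)).re =
          ∑ k ∈ K, m k * (t p * conj (v k p)).re := by
        rw [map_sum, Finset.mul_sum, Complex.re_sum]
        refine Finset.sum_congr rfl fun k _ => ?_
        rw [map_mul, Complex.conj_ofReal, mul_left_comm, Complex.re_ofReal_mul]
      have e5 : ((∑ k ∈ K, (m k : ℂ) * v k p) * conj (∑ k ∈ K, (m k : ℂ) * v k p)).re =
          ∑ k ∈ K, ∑ l ∈ K, (m k * m l) * (v k p * conj (v l p)).re := by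
        rw [map_sum, Finset.sum_mul_sum, Complex.re_sum]
        refine Finset.sum_congr rfl fun k _ => ?_
        rw [Complex.re_sum]
        refine Finset.sum_congr rfl fun l _ => ?_
        rw [map_mul, Complex.conj_ofReal]
        have : (m k : ℂ) * v k p * ((m l : ℂ) * conj (v l p)) =
            ((m k * m l : ℝ) : ℂ) * (v k p * conj (v l p)) := by
          push_cast; ring
        rw [this, Complex.re_ofReal_mul]
      rw [e1, map_add, add_mul, mul_add, mul_add, Complex.add_re, Complex.add_re, Complex.add_re,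
        e3, e4, e5, e2, ← Finset.mul_sum]
      ring
    have hbt : ∀ p, |‖t p‖ ^ 2| ≤ b ^ 2 := by
      intro p
      rw [abs_of_nonneg (sq_nonneg _)]
      exact pow_le_pow_left₀ (norm_nonneg _) (ht p) 2
    have hb1 : ∀ k p, |(t p * conj (v k p)).re| ≤ b := by
      intro k p
      refine (Complex.abs_re_le_norm _).trans ?_
      rw [norm_mul, Complex.norm_conj]
      calc ‖t p‖ * ‖v k p‖ ≤ b * 1 := mul_le_mul (ht p) (hv k p) (norm_nonneg _) hb0
        _ = b := mul_one b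
    have hb2 : ∀ k l p, |(v k p * conj (v l p)).re| ≤ 1 := by
      intro k l p
      refine (Complex.abs_re_le_norm _).trans ?_
      rw [norm_mul, Complex.norm_conj]
      exact mul_le_one₀ (hv k p) (norm_nonneg _) (hv l p)
    have hb1' : ∀ k p, |2 * (m k * (t p * conj (v k p)).re)| ≤ 2 * (|m k| * b) := by
      intro k p
      rw [abs_mul, abs_mul, abs_two]
      gcongr
      exact hb1 k p
    have hb2' : ∀ k l p, |m k * m l * (v k p * conj (v l p)).re| ≤ |m k * m l| * 1 := by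
      intro k l p
      rw [abs_mul]
      gcongr
      exact hb2 k l p
    have hS2 : ∀ k p, |∑ l ∈ K, m k * m l * (v k p * conj (v l p)).re| ≤
        ∑ l ∈ K, |m k * m l| * 1 := fun k p =>
      (Finset.abs_sum_le_sum_abs _ _).trans (Finset.sum_le_sum fun l _ => hb2' k l p)
    have hexp : S.E ε (fun p => ‖t p + ∑ k ∈ K, (m k : ℂ) * v k p‖ ^ 2) =
        S.E ε (fun p => ‖t p‖ ^ 2) + (∑ k ∈ K, 2 * (m k * S.E ε fun p => (t p * conj (v k p)).re) +
          ∑ k ∈ K, ∑ l ∈ K, (m k * m l) * S.E ε fun p => (v k p * conj (v l p)).re) := by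
      have s1 : ∀ p, |∑ k ∈ K, 2 * (m k * (t p * conj (v k p)).re)| ≤
          ∑ k ∈ K, 2 * (|m k| * b) := fun p =>
        (Finset.abs_sum_le_sum_abs _ _).trans (Finset.sum_le_sum fun k _ => hb1' k p)
      have s2 : ∀ p, |∑ k ∈ K, ∑ l ∈ K, (m k * m l) * (v k p * conj (v l p)).re| ≤
          ∑ k ∈ K, ∑ l ∈ K, |m k * m l| * 1 := fun p =>
        (Finset.abs_sum_le_sum_abs _ _).trans (Finset.sum_le_sum fun k _ => hS2 k p)
      rw [funext hpt, S.E_add hε hbt (B' := ∑ k ∈ K, 2 * (|m k| * b) +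
        ∑ k ∈ K, ∑ l ∈ K, |m k * m l| * 1)
        (fun p => (abs_add_le _ _).trans (add_le_add (s1 p) (s2 p))), S.E_add hε s1 s2,
        S.E_sum hε K _ (fun k => 2 * (|m k| * b)) (fun k _ p => hb1' k p),
        S.E_sum hε K _ (fun k => ∑ l ∈ K, |m k * m l| * 1) (fun k _ p => hS2 k p)]
      congr 2
      · refine Finset.sum_congr rfl fun k _ => ?_
        rw [S.E_const_mul, E_const_mul]
      · refine Finset.sum_congr rfl fun k _ => ?_
        rw [S.E_sum hε K _ (fun l => |m k * m l| * 1) (fun l _ p => hb2' k l p)]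
        refine Finset.sum_congr rfl fun l _ => ?_
        rw [E_const_mul]
    have hpos : 0 ≤ S.E ε (fun p => ‖t p + ∑ k ∈ K, (m k : ℂ) * v k p‖ ^ 2) :=
      S.E_nonneg fun p => sq_nonneg _
    rw [hexp] at hpos
    have hA : S.E ε (fun p => ‖t p‖ ^ 2) ≤ b ^ 2 * S.lam ε :=
      S.E_le hε hbt fun p => (le_abs_self _).trans (hbt p)
    have hB : ∑ k ∈ K, 2 * (m k * S.E ε fun p => (t p * conj (v k p)).re) ≤
        ∑ k ∈ K, 2 * (-(m k) ^ 2 * S.lam ε + Cc k) :=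
      Finset.sum_le_sum fun k hk => mul_le_mul_of_nonneg_left (h2 k hk) (by norm_num)
    have hCC : ∑ k ∈ K, ∑ l ∈ K, (m k * m l) * (S.E ε fun p => (v k p * conj (v l p)).re) ≤
        ∑ k ∈ K, ((m k) ^ 2 * S.lam ε + ∑ l ∈ K, |m k * m l| * |Co k l|) := by
      refine Finset.sum_le_sum fun k hk => ?_
      rw [← Finset.add_sum_erase K _ hk, ← Finset.add_sum_erase K (fun l => |m k * m l| * |Co k l|) hk]
      have d1 : (m k * m k) * (S.E ε fun p => (v k p * conj (v k p)).re) ≤ (m k) ^ 2 * S.lam ε := by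
        rw [← sq]
        refine mul_le_mul_of_nonneg_left ?_ (sq_nonneg _)
        have := S.E_le hε (hb2 k k) (b := 1) fun p => (le_abs_self _).trans (hb2 k k p)
        linarith
      have d2 : ∑ l ∈ K.erase k, (m k * m l) * (S.E ε fun p => (v k p * conj (v l p)).re) ≤
          ∑ l ∈ K.erase k, |m k * m l| * |Co k l| := by
        refine Finset.sum_le_sum fun l hl => ?_
        rw [Finset.mem_erase] at hl
        refine (le_abs_self _).trans ?_
        rw [abs_mul]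
        refine mul_le_mul_of_nonneg_left ?_ (abs_nonneg _)
        exact (h1 k hk l hl.2 (Ne.symm hl.1)).trans (le_abs_self _)
      have d3 : 0 ≤ |m k * m k| * |Co k k| := by positivity
      linarith
    rw [hC']
    have e6 : ∑ k ∈ K, 2 * (-(m k) ^ 2 * S.lam ε + Cc k) =
        -2 * (∑ k ∈ K, (m k) ^ 2) * S.lam ε + 2 * ∑ k ∈ K, Cc k := by
      rw [← Finset.mul_sum, Finset.sum_add_distrib, ← Finset.sum_mul, Finset.sum_neg_distrib]
      ring
    have e7 : ∑ k ∈ K, ((m k) ^ 2 * S.lam ε + ∑ l ∈ K, |m k * m l| * |Co k l|) =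
        (∑ k ∈ K, (m k) ^ 2) * S.lam ε + ∑ k ∈ K, ∑ l ∈ K, |m k * m l| * |Co k l| := by
      rw [Finset.sum_add_distrib, ← Finset.sum_mul]
    rw [e6] at hB
    rw [e7] at hCC
    nlinarith
  by_contra hcon
  push Not at hcon
  have hneg : b ^ 2 - ∑ k ∈ K, (m k) ^ 2 < 0 := by linarith
  have h5 : Tendsto (fun ε => (b ^ 2 - ∑ k ∈ K, (m k) ^ 2) * S.lam ε + C') (𝓝[>] 0) atBot :=
    tendsto_atBot_add_const_right _ _ (S.lam_tendsto.const_mul_atTop_of_neg hneg)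
  obtain ⟨ε, h6, h7⟩ := (key.and (h5.eventually_lt_atBot 0)).exists
  linarith

end NormSys

end Pool.Agent.H341R2
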