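import Pool.Agent.H21.L.R_seed8.H341R2.NF.Bessel2
import Pool.Agent.H21.L.R_seed8.H341R2.Bessel
import Pool.Agent.H21.L.R_seed8.H341R2.NF.Abel
import Pool.Agent.H21.L.R_seed8.H484R2.Pit
import Pool.Agent.H21.L.R_seed8.H921R2.TatePole.Homs

/-! The system of prime ideals of a number field, and mean values over it. -/

set_option autoImplicit false

namespace Pool.Agent.H341R2

open Complex Filter Topology ComplexConjugate NumberField IsDedekindDomain
open Pool.Agent.H921R2.TatePole (nm two_le_nm nm_summable prime_sum_bdd Lam below deg R hc deg_two_bound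
  R_eq_hc R_le kerPrime kerPrime_bijective w C0 nm_eq)

/-- the prime ideals of a number field as a system of norms -/
noncomputable def sysK (K : Type) [Field K] [NumberField K] : NormSys where
  X := HeightOneSpectrum (𝓞 K)
  N := nm
  two_le := two_le_nm
  summable := by
    intro r hr
    have := nm_summable (K := K) (x := -r) (by linarith)
    simpa using this
  log_bdd := by
    obtain ⟨C, hC⟩ := prime_sum_bdd (K := K)
    refine ⟨C, ?_⟩
    have ht : Tendsto (fun ε : ℝ => 1 + ε) (𝓝[>] 0) (𝓝[>] 1) := by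
      rw [tendsto_nhdsWithin_iff]
      constructor
      · have : Tendsto (fun ε : ℝ => 1 + ε) (𝓝 0) (𝓝 (1 + 0)) := tendsto_id.const_add 1
        simpa using this.mono_left nhdsWithin_le_nhds
      · filter_upwards [self_mem_nhdsWithin] with x hx
        have hx' : (0 : ℝ) < x := hx
        simpa using hx'
    filter_upwards [ht.eventually hC] with ε hε
    have h1 : Lam (1 + ε) = - Real.log ε := by
      unfold Lam
      rw [add_sub_cancel_left, one_div, Real.log_inv]
    rw [h1, sub_neg_eq_add] at hε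
    exact hε

section
variable {K : Type} [Field K] [NumberField K]

/-- the sum of `g` over the primes of degree one above `p` -/
noncomputable def low (g : HeightOneSpectrum (𝓞 K) → ℝ) (p : Nat.Primes) : ℝ := by
  classical
  exact ∑ v : {v : HeightOneSpectrum (𝓞 K) // below v = p}, if deg v.1 = 1 then g v.1 else 0

theorem low_eq (g : HeightOneSpectrum (𝓞 K) → ℝ) (p : Nat.Primes)
    [Fintype (𝓞 K →+* ZMod (p : ℕ))] :
    low g p = ∑ φ : 𝓞 K →+* ZMod (p : ℕ), g (kerPrime p φ).1.1 := by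
  classical
  unfold low
  rw [← Finset.sum_filter]
  rw [Finset.sum_subtype (Finset.univ.filter
    fun v : {v : HeightOneSpectrum (𝓞 K) // below v = p} => deg v.1 = 1)
    (p := fun v => deg v.1 = 1) (by simp) (fun v => g v.1)]
  exact (Fintype.sum_bijective (kerPrime (K := K) p) (kerPrime_bijective p) _ _ fun φ => rfl).symm

/-- passing between sums over prime ideals and sums over primes -/
theorem E_low {g : HeightOneSpectrum (𝓞 K) → ℝ} {C : ℝ} (hg : ∀ v, |g v| ≤ C) {ε : ℝ}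
    (hε : 0 < ε) :
    |(sysK K).E ε g - E ε (low g)| ≤ C * Module.finrank ℚ K * C0 :=
  deg_two_bound (K := K) (x := 1 + ε) (by linarith) hg

theorem lamK_sub : ∃ C : ℝ, ∀ᶠ ε : ℝ in 𝓝[>] 0, |(sysK K).lam ε - lam ε| ≤ C := by
  obtain ⟨C1, h1⟩ := (sysK K).lam_bounded
  obtain ⟨C2, h2⟩ := lam_bounded
  refine ⟨C1 + C2, ?_⟩
  filter_upwards [h1, h2] with ε h3 h4
  have : (sysK K).lam ε - lam ε = ((sysK K).lam ε + Real.log ε) - (lam ε + Real.log ε) := by ring
  rw [this]
  exact (abs_sub _ _).trans (by linarith)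

/-- mean value zero at the level of rational primes -/
def PNegl (φ : Nat.Primes → ℝ) : Prop :=
  ∀ η : ℝ, 0 < η → ∀ᶠ ε : ℝ in 𝓝[>] 0, |E ε φ| ≤ η * lam ε

theorem PNegl.of_bdd {φ : Nat.Primes → ℝ} (h : ∃ C : ℝ, ∀ᶠ ε : ℝ in 𝓝[>] 0, |E ε φ| ≤ C) :
    PNegl φ := by
  intro η hη
  obtain ⟨C, hC⟩ := h
  filter_upwards [hC, lam_tendsto.eventually_ge_atTop (C / η)] with ε h1 h2
  rw [div_le_iff₀ hη] at h2
  linarith

theorem PNegl.add {φ ψ : Nat.Primes → ℝ} {B B' : ℝ} (hφ : PNegl φ) (hψ : PNegl ψ)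
    (h1 : ∀ p, |φ p| ≤ B) (h2 : ∀ p, |ψ p| ≤ B') : PNegl fun p => φ p + ψ p := by
  intro η hη
  filter_upwards [hφ (η / 2) (by positivity), hψ (η / 2) (by positivity), self_mem_nhdsWithin]
    with ε h3 h4 h5
  have hε : (0 : ℝ) < ε := h5
  rw [E_add hε h1 h2]
  refine (abs_add_le _ _).trans ?_
  linarith

/-- lifting to the level of prime ideals -/
theorem negl_of_low {g : HeightOneSpectrum (𝓞 K) → ℝ} {C : ℝ} (hg : ∀ v, |g v| ≤ C)
    (h : PNegl (low g)) : (sysK K).Negl g := by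
  intro η hη
  obtain ⟨C1, h1⟩ := lamK_sub (K := K)
  filter_upwards [h (η / 2) (by positivity), h1, self_mem_nhdsWithin,
    (sysK K).lam_tendsto.eventually_ge_atTop
      (2 / η * (η / 2 * C1 + C * Module.finrank ℚ K * C0))] with ε h2 h3 h4 h5
  have hε : (0 : ℝ) < ε := h4
  have h6 := E_low hg hε
  have h7 := abs_sub_abs_le_abs_sub ((sysK K).E ε g) (E ε (low g))
  have h8 := (abs_le.1 h3).1
  have h9 := mul_le_mul_of_nonneg_left h5 (by positivity : 0 ≤ η / 2)
  have h10 : η / 2 * (2 / η * (η / 2 * C1 + C * Module.finrank ℚ K * C0)) =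
      η / 2 * C1 + C * Module.finrank ℚ K * C0 := by
    field_simp
  rw [h10] at h9
  have h11 : η / 2 * lam ε ≤ η / 2 * ((sysK K).lam ε + C1) :=
    mul_le_mul_of_nonneg_left (by linarith) (by positivity)
  linarith

/-- the prime ideal theorem at the edge -/
theorem negl_R (K L : Type) [Field K] [NumberField K] [Field L] [NumberField L] (τ : ℝ) :
    PNegl fun p => ((R L p : ℝ) - R K p) * (((p : ℕ) : ℂ) ^ (-(τ * I))).re := by
  classical
  intro η hη
  set r : ℕ → ℝ := fun n => if n.Prime then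
    ((Nat.card (𝓞 L →+* ZMod n) : ℝ) - (Nat.card (𝓞 K →+* ZMod n) : ℝ)) else 0 with hr
  have hcl : ∀ p : Nat.Primes, r p = (R L p : ℝ) - R K p := by
    intro p
    rw [hr]
    simp only
    rw [if_pos p.2, R_eq_hc, R_eq_hc]
    rfl
  have hb : ∀ n, |r n| ≤ (Module.finrank ℚ L : ℝ) + Module.finrank ℚ K := by
    intro n
    by_cases hn : n.Prime
    · have := hcl ⟨n, hn⟩
      have e : r n = (R L ⟨n, hn⟩ : ℝ) - R K ⟨n, hn⟩ := this
      rw [e]
      have h1 : (R L ⟨n, hn⟩ : ℝ) ≤ Module.finrank ℚ L := by exact_mod_cast R_le (K := L) ⟨n, hn⟩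
      have h2 : (R K ⟨n, hn⟩ : ℝ) ≤ Module.finrank ℚ K := by exact_mod_cast R_le (K := K) ⟨n, hn⟩
      rw [abs_le]
      constructor
      · have : (0 : ℝ) ≤ R L ⟨n, hn⟩ := Nat.cast_nonneg _
        have : (0 : ℝ) ≤ Module.finrank ℚ L := Nat.cast_nonneg _
        linarith
      · have : (0 : ℝ) ≤ R K ⟨n, hn⟩ := Nat.cast_nonneg _
        have : (0 : ℝ) ≤ Module.finrank ℚ K := Nat.cast_nonneg _
        linarith
    · have e : r n = 0 := if_neg hn
      rw [e, abs_zero]
      positivity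
  have hmean : Tendsto (fun N : ℕ => Abel.AA r N / (Nat.primeCounting N : ℝ)) atTop (𝓝 0) := by
    have h1 := (Pool.Agent.H484R2.pit L).sub (Pool.Agent.H484R2.pit K)
    rw [sub_self] at h1
    refine h1.congr fun N => ?_
    rw [← sub_div, ← Finset.sum_sub_distrib]
    congr 1
    unfold Abel.AA
    refine Finset.sum_congr rfl fun p hp => ?_
    rw [hr]
    simp only
    rw [if_pos (Finset.mem_filter.1 hp).2]
  filter_upwards [Abel.abel hb hmean τ hη, self_mem_nhdsWithin] with ε h1 h2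
  have hε : (0 : ℝ) < ε := h2
  refine le_trans ?_ h1
  have hsum : Summable fun p : Nat.Primes => (r p : ℂ) * ((p : ℕ) : ℂ) ^ (-(1 + ε + τ * I) : ℂ) := by
    refine Summable.of_norm_bounded ((summable_prime_rpow (r := -(1 + ε)) (by linarith)).mul_left
      ((Module.finrank ℚ L : ℝ) + Module.finrank ℚ K)) fun p => ?_
    rw [norm_mul, norm_prime_cpow, Complex.norm_real]
    have e : (1 + ε + τ * I : ℂ).re = 1 + ε := by simp
    rw [e]
    exact mul_le_mul_of_nonneg_right (hb p) (by positivity)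
  have h3 : E ε (fun p => ((R L p : ℝ) - R K p) * (((p : ℕ) : ℂ) ^ (-(τ * I))).re) =
      (∑' p : Nat.Primes, (r p : ℂ) * ((p : ℕ) : ℂ) ^ (-(1 + ε + τ * I) : ℂ)).re := by
    rw [Complex.re_tsum hsum, E]
    refine tsum_congr fun p => ?_
    have h0 : ((p : ℕ) : ℂ) ≠ 0 := by exact_mod_cast p.2.ne_zero
    have e : ((p : ℕ) : ℂ) ^ (-(1 + ε + τ * I) : ℂ) =
        ((p : ℕ) : ℂ) ^ (-(τ * I)) * (((p : ℝ) ^ (-(1 + ε)) : ℝ) : ℂ) := by
      rw [Complex.ofReal_cpow (by positivity)]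
      push_cast
      rw [← Complex.cpow_add _ _ h0]
      congr 1
      ring
    rw [e, hcl, ← mul_assoc, Complex.re_mul_ofReal, Complex.re_ofReal_mul]
  rw [h3]
  exact Complex.abs_re_le_norm _

theorem negl_tau {τ : ℝ} (hτ : τ ≠ 0) : PNegl fun p => (((p : ℕ) : ℂ) ^ (-(τ * I))).re := by
  apply PNegl.of_bdd
  obtain ⟨C, hC⟩ := primeSum_bounded (1 : DirichletCharacter ℂ 1) τ (Or.inr hτ)
  refine ⟨C, ?_⟩
  filter_upwards [hC, self_mem_nhdsWithin] with ε h1 h2
  have hε : (0 : ℝ) < ε := h2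
  convert h1 using 2
  have h5 : ∀ p : Nat.Primes, (1 : DirichletCharacter ℂ 1) p *
      ((p : ℕ) : ℂ) ^ (-(1 + ε + τ * I) : ℂ) =
      ((p : ℕ) : ℂ) ^ (-(τ * I)) * (((p : ℝ) ^ (-(1 + ε)) : ℝ) : ℂ) := by
    intro p
    have h0 : ((p : ℕ) : ℂ) ≠ 0 := by exact_mod_cast p.2.ne_zero
    rw [MulChar.one_apply (isUnit_of_subsingleton _), one_mul, Complex.ofReal_cpow (by positivity)]
    push_cast
    rw [← Complex.cpow_add _ _ h0]
    congr 1
    ring
  rw [tsum_congr h5, E, Complex.re_tsum]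
  · refine tsum_congr fun p => ?_
    rw [Complex.re_mul_ofReal]
  · refine Summable.of_norm_bounded (summable_prime_rpow (r := -(1 + ε)) (by linarith)) fun p => ?_
    have h6 : ‖((p : ℕ) : ℂ) ^ (-(τ * I))‖ = 1 := by
      rw [norm_prime_cpow]
      simp
    rw [norm_mul, h6, one_mul, Complex.norm_real, Real.norm_eq_abs, abs_of_nonneg (w_nonneg ε p)]

end

end Pool.Agent.H341R2
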