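import Pool.Agent.H21.L.R_seed8.H341R2.NF.Model

/-! Quadratic twists of an elliptic curve over a number field: point counts at the good primes. -/

set_option autoImplicit false

namespace Pool.Agent.H341R2.EC

open NumberField IsDedekindDomain Pool.Agent.H921R2.TatePole Pool.Agent.H341R2

variable {K : Type} [Field K] [NumberField K]

/-- The quadratic twist `y² = x³ - 27 d² c₄ x - 54 d³ c₆` of `E` by `d`. -/
noncomputable def twist (E : WeierstrassCurve K) (d : K) : WeierstrassCurve K where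
  a₁ := 0
  a₂ := 0
  a₃ := 0
  a₄ := -27 * d ^ 2 * E.c₄
  a₆ := -54 * d ^ 3 * E.c₆

/-- the integral model of the twist -/
noncomputable def mdl (P Q d : 𝓞 K) : WeierstrassCurve (𝓞 K) where
  a₁ := 0
  a₂ := 0
  a₃ := 0
  a₄ := -27 * d ^ 2 * P
  a₆ := -54 * d ^ 3 * Q

theorem mdl_c₄ (P Q d : 𝓞 K) : (mdl P Q d).c₄ = 6 ^ 4 * (d ^ 2 * P) := by
  simp only [WeierstrassCurve.c₄, WeierstrassCurve.b₂, WeierstrassCurve.b₄, mdl]
  ring

theorem mdl_c₆ (P Q d : 𝓞 K) : (mdl P Q d).c₆ = 6 ^ 6 * (d ^ 3 * Q) := by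
  simp only [WeierstrassCurve.c₆, WeierstrassCurve.b₂, WeierstrassCurve.b₄, WeierstrassCurve.b₆,
    mdl]
  ring

theorem mdl_Δ (P Q d : 𝓞 K) : 1728 * (mdl P Q d).Δ = 6 ^ 12 * d ^ 6 * (P ^ 3 - Q ^ 2) := by
  rw [WeierstrassCurve.c_relation, mdl_c₄, mdl_c₆]
  ring

theorem exists_integral (E : WeierstrassCurve K) (hE : E.IsElliptic) :
    ∃ l P Q : 𝓞 K, l ≠ 0 ∧ (P : K) = (l : K) ^ 4 * E.c₄ ∧ (Q : K) = (l : K) ^ 6 * E.c₆ ∧
      P ^ 3 - Q ^ 2 ≠ 0 := by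
  classical
  obtain ⟨⟨b, hb⟩, h⟩ := IsLocalization.exist_integer_multiples_of_finset
    (nonZeroDivisors (𝓞 K)) (insert E.c₄ (singleton E.c₆) : Finset K)
  have hb0 : b ≠ 0 := nonZeroDivisors.ne_zero hb
  have hbK : (algebraMap (𝓞 K) K b) ≠ 0 := by
    rwa [Ne, FaithfulSMul.algebraMap_eq_zero_iff]
  obtain ⟨x, hx⟩ := h E.c₄ (by simp)
  obtain ⟨y, hy⟩ := h E.c₆ (by simp)
  rw [Algebra.smul_def] at hx hy
  have e1 : ((b ^ 3 * x : 𝓞 K) : K) = (algebraMap (𝓞 K) K b) ^ 4 * E.c₄ := by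
    have : ((b ^ 3 * x : 𝓞 K) : K) = (algebraMap (𝓞 K) K b) ^ 3 * algebraMap (𝓞 K) K x := by
      simp
    rw [this, hx]
    simp only
    ring
  have e2 : ((b ^ 5 * y : 𝓞 K) : K) = (algebraMap (𝓞 K) K b) ^ 6 * E.c₆ := by
    have : ((b ^ 5 * y : 𝓞 K) : K) = (algebraMap (𝓞 K) K b) ^ 5 * algebraMap (𝓞 K) K y := by
      simp
    rw [this, hy]
    simp only
    ring
  refine ⟨b, b ^ 3 * x, b ^ 5 * y, hb0, e1, e2, ?_⟩
  intro h0
  have h1 : (((b ^ 3 * x) ^ 3 - (b ^ 5 * y) ^ 2 : 𝓞 K) : K) = 0 := by rw [h0]; simp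
  have h2 : (((b ^ 3 * x) ^ 3 - (b ^ 5 * y) ^ 2 : 𝓞 K) : K) =
      ((b ^ 3 * x : 𝓞 K) : K) ^ 3 - ((b ^ 5 * y : 𝓞 K) : K) ^ 2 := by simp
  rw [h2, e1, e2] at h1
  have h3 : (algebraMap (𝓞 K) K b) ^ 12 * (1728 * E.Δ) = 0 := by
    rw [WeierstrassCurve.c_relation, ← h1]
    ring
  have h4 : E.Δ ≠ 0 := E.isUnit_Δ.ne_zero
  have h5 : (1728 : K) ≠ 0 := by norm_num
  exact mul_ne_zero (pow_ne_zero _ hbK) (mul_ne_zero h5 h4) h3

theorem isModel_mdl (E : WeierstrassCurve K) {l P Q : 𝓞 K} (hl : l ≠ 0)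
    (hP : (P : K) = (l : K) ^ 4 * E.c₄) (hQ : (Q : K) = (l : K) ^ 6 * E.c₆) (d : 𝓞 K) :
    IsModel (twist E d) (mdl P Q d) := by
  have hlK : (l : K) ≠ 0 := by
    have : (algebraMap (𝓞 K) K l) ≠ 0 := by
      rwa [Ne, FaithfulSMul.algebraMap_eq_zero_iff]
    exact this
  refine ⟨⟨(Units.mk0 (l : K) hlK)⁻¹, 0, 0, 0⟩, ?_⟩
  have e1 : algebraMap (𝓞 K) K (-27 * d ^ 2 * P) = -27 * (d : K) ^ 2 * (P : K) := by
    simp only [map_mul, map_neg, map_pow, map_ofNat]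
  have e2 : algebraMap (𝓞 K) K (-54 * d ^ 3 * Q) = -54 * (d : K) ^ 3 * (Q : K) := by
    simp only [map_mul, map_neg, map_pow, map_ofNat]
  ext
  · simp [WeierstrassCurve.variableChange_def, twist, mdl, WeierstrassCurve.map]
  · simp [WeierstrassCurve.variableChange_def, twist, mdl, WeierstrassCurve.map]
  · simp [WeierstrassCurve.variableChange_def, twist, mdl, WeierstrassCurve.map]
  · simp only [WeierstrassCurve.variableChange_def, twist, mdl, WeierstrassCurve.map, inv_inv,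
      Units.val_mk0]
    rw [e1, hP]
    ring
  · simp only [WeierstrassCurve.variableChange_def, twist, mdl, WeierstrassCurve.map, inv_inv,
      Units.val_mk0]
    rw [e2, hQ]
    ring

/-- the character sum of `Y² = X³ - 27PX - 54Q` at `v` -/
noncomputable def csumv (P Q : 𝓞 K) (v : HeightOneSpectrum (𝓞 K)) : ℤ :=
  csum (Ideal.Quotient.mk v.asIdeal P) (Ideal.Quotient.mk v.asIdeal Q)

theorem count_good {E : WeierstrassCurve K} {l P Q : 𝓞 K} (hl : l ≠ 0)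
    (hP : (P : K) = (l : K) ^ 4 * E.c₄) (hQ : (Q : K) = (l : K) ^ 6 * E.c₆) {d : 𝓞 K}
    {v : HeightOneSpectrum (𝓞 K)} {V : WeierstrassCurve (𝓞 K)} (hV : IsMinAt (twist E d) v V)
    (h6 : (6 : 𝓞 K) ∉ v.asIdeal) (hd : d ∉ v.asIdeal) (hD : P ^ 3 - Q ^ 2 ∉ v.asIdeal) :
    V.Δ ∉ v.asIdeal ∧ (aff (red v V) : ℤ) = nm v + chi d v * csumv P Q v := by
  have hp := v.isPrime
  have hmodel := isModel_mdl E hl hP hQ d
  have hΔ : (mdl P Q d).Δ ∉ v.asIdeal := by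
    intro h
    have h1 : 6 ^ 12 * d ^ 6 * (P ^ 3 - Q ^ 2) ∈ v.asIdeal := by
      rw [← mdl_Δ]
      exact v.asIdeal.mul_mem_left _ h
    rcases hp.mem_or_mem h1 with h2 | h2
    · rcases hp.mem_or_mem h2 with h3 | h3
      · exact h6 (hp.mem_of_pow_mem _ h3)
      · exact hd (hp.mem_of_pow_mem _ h3)
    · exact hD h2
  have hVΔ := minimal_good hV hmodel hΔ
  refine ⟨hVΔ, ?_⟩
  have h6' : (6 : 𝓞 K ⧸ v.asIdeal) ≠ 0 := by
    have := mk_ne h6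
    rwa [map_ofNat] at this
  rw [aff_model hV.1 hmodel hVΔ hΔ h6, aff_eq_short h6']
  have e1 : (red v (mdl P Q d)).c₄ = 6 ^ 4 * (Ideal.Quotient.mk v.asIdeal d ^ 2 *
      Ideal.Quotient.mk v.asIdeal P) := by
    unfold red
    rw [WeierstrassCurve.map_c₄, mdl_c₄]
    simp only [map_mul, map_pow, map_ofNat]
  have e2 : (red v (mdl P Q d)).c₆ = 6 ^ 6 * (Ideal.Quotient.mk v.asIdeal d ^ 3 *
      Ideal.Quotient.mk v.asIdeal Q) := by
    unfold red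
    rw [WeierstrassCurve.map_c₆, mdl_c₆]
    simp only [map_mul, map_pow, map_ofNat]
  rw [e1, e2, short_scale h6', short_eq h6', card_v]
  congr 1
  exact csum_twist (mk_ne hd) _ _

theorem csumv_bound {P Q : 𝓞 K} {v : HeightOneSpectrum (𝓞 K)}
    (h6 : (6 : 𝓞 K) ∉ v.asIdeal) (hD : P ^ 3 - Q ^ 2 ∉ v.asIdeal) :
    |(csumv P Q v : ℝ)| ≤ 2 * Real.sqrt (nm v) := by
  have h6' : (6 : 𝓞 K ⧸ v.asIdeal) ≠ 0 := by
    have := mk_ne h6
    rwa [map_ofNat] at this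
  have h := csum_bound h6' (c := Ideal.Quotient.mk v.asIdeal P)
    (c' := Ideal.Quotient.mk v.asIdeal Q) (by
      have := mk_ne hD
      rwa [map_sub, map_pow, map_pow] at this)
  rw [card_v] at h
  exact h

theorem finite_mem {x : 𝓞 K} (hx : x ≠ 0) :
    {v : HeightOneSpectrum (𝓞 K) | x ∈ v.asIdeal}.Finite := by
  have h1 : (Ideal.span {x} : Ideal (𝓞 K)) ≠ 0 := by
    rwa [Ne, Ideal.zero_eq_bot, Ideal.span_singleton_eq_bot]
  have h2 := Ideal.finite_factors h1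
  refine h2.subset fun v hv => ?_
  simp only [Set.mem_ofPred_eq] at hv ⊢
  rwa [Ideal.dvd_span_singleton]

end Pool.Agent.H341R2.EC
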